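import Pool.Agent.Lib.MP_23b606_ag.T1.Defs

/-! C/Hom: polynomials over `k[x]` which are homogeneous in `(X, x)`; top coefficients. -/

set_option autoImplicit false

open Polynomial

namespace T1

/-- `p ∈ k[x][X]` is homogeneous of total degree `D` in `(X, x)`. -/
def HomD {k : Type} [Field k] {σ : Type} (D : ℕ) (p : (MvPolynomial σ k)[X]) : Prop :=
  ∀ c, (c ≤ D → (p.coeff c).IsHomogeneous (D - c)) ∧ (D < c → p.coeff c = 0)

variable {k : Type} [Field k] {σ : Type}

theorem HomD.mul {D D' : ℕ} {p q : (MvPolynomial σ k)[X]} (hp : HomD D p) (hq : HomD D' q) :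
    HomD (D + D') (p * q) := by
  intro c
  rw [Polynomial.coeff_mul]
  constructor
  · intro hc
    refine MvPolynomial.IsHomogeneous.sum _ _ _ fun x hx => ?_
    rw [Finset.HasAntidiagonal.mem_antidiagonal] at hx
    by_cases h1 : x.1 ≤ D
    · by_cases h2 : x.2 ≤ D'
      · have h3 := ((hp x.1).1 h1).mul ((hq x.2).1 h2)
        have h4 : D - x.1 + (D' - x.2) = D + D' - c := by omega
        rw [h4] at h3
        exact h3
      · rw [(hq x.2).2 (not_le.1 h2), mul_zero]
        exact MvPolynomial.isHomogeneous_zero _ _ _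
    · rw [(hp x.1).2 (not_le.1 h1), zero_mul]
      exact MvPolynomial.isHomogeneous_zero _ _ _
  · intro hc
    refine Finset.sum_eq_zero fun x hx => ?_
    rw [Finset.HasAntidiagonal.mem_antidiagonal] at hx
    by_cases h1 : x.1 ≤ D
    · rw [(hq x.2).2 (by omega), mul_zero]
    · rw [(hp x.1).2 (not_le.1 h1), zero_mul]

theorem HomD.CC (a : k) : HomD 0 (C (MvPolynomial.C a) : (MvPolynomial σ k)[X]) := by
  intro c
  rw [Polynomial.coeff_C]
  constructor
  · intro hc
    obtain rfl : c = 0 := by omega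
    rw [if_pos rfl]
    exact MvPolynomial.isHomogeneous_C _ _
  · intro hc
    rw [if_neg (by omega)]

theorem HomD.one : HomD 0 (1 : (MvPolynomial σ k)[X]) := by
  have h := HomD.CC (k := k) (σ := σ) 1
  rw [MvPolynomial.C_1, Polynomial.C_1] at h
  exact h

theorem HomD.zero (D : ℕ) : HomD D (0 : (MvPolynomial σ k)[X]) := by
  intro c
  rw [Polynomial.coeff_zero]
  exact ⟨fun _ => MvPolynomial.isHomogeneous_zero _ _ _, fun _ => rfl⟩

theorem HomD.add {D : ℕ} {p q : (MvPolynomial σ k)[X]} (hp : HomD D p) (hq : HomD D q) :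
    HomD D (p + q) := by
  intro c
  rw [Polynomial.coeff_add]
  constructor
  · intro hc
    exact ((hp c).1 hc).add ((hq c).1 hc)
  · intro hc
    rw [(hp c).2 hc, (hq c).2 hc, add_zero]

theorem HomD.sum {D : ℕ} {α : Type} (s : Finset α) (p : α → (MvPolynomial σ k)[X])
    (hp : ∀ a ∈ s, HomD D (p a)) : HomD D (∑ a ∈ s, p a) :=
  Finset.sum_induction p (HomD D) (fun _ _ ha hb => ha.add hb) (HomD.zero D) hp

theorem HomD.pow {D : ℕ} {p : (MvPolynomial σ k)[X]} (hp : HomD D p) (n : ℕ) :
    HomD (n * D) (p ^ n) := by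
  induction n with
  | zero =>
    rw [zero_mul, pow_zero]
    exact HomD.one
  | succ n ih =>
    rw [add_mul, one_mul, pow_succ]
    exact ih.mul hp

theorem HomD.prod {α : Type} (s : Finset α) (D : α → ℕ) (p : α → (MvPolynomial σ k)[X])
    (hp : ∀ a ∈ s, HomD (D a) (p a)) : HomD (∑ a ∈ s, D a) (∏ a ∈ s, p a) := by
  classical
  induction s using Finset.induction_on with
  | empty =>
    rw [Finset.sum_empty, Finset.prod_empty]
    exact HomD.one
  | insert a s ha ih =>
    rw [Finset.sum_insert ha, Finset.prod_insert ha]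
    exact (hp a (Finset.mem_insert_self a s)).mul
      (ih fun b hb => hp b (Finset.mem_insert_of_mem hb))

theorem HomD.lin (v : σ) : HomD 1 (X - C (MvPolynomial.X v) : (MvPolynomial σ k)[X]) := by
  intro c
  rw [Polynomial.coeff_sub, Polynomial.coeff_X, Polynomial.coeff_C]
  constructor
  · intro hc
    rcases Nat.le_one_iff_eq_zero_or_eq_one.1 hc with rfl | rfl
    · rw [if_neg (by omega), if_pos rfl, zero_sub]
      exact (MvPolynomial.isHomogeneous_X k v).neg
    · rw [if_pos rfl, if_neg (by omega), sub_zero]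
      exact MvPolynomial.isHomogeneous_one _ _
  · intro hc
    rw [if_neg (by omega), if_neg (by omega), sub_zero]

theorem HomD.prod_lin {α : Type} (s : Finset α) (v : α → σ) :
    HomD s.card (∏ a ∈ s, (X - C (MvPolynomial.X (v a))) : (MvPolynomial σ k)[X]) := by
  have h := HomD.prod s (fun _ => 1) (fun a => (X - C (MvPolynomial.X (v a)) :
    (MvPolynomial σ k)[X])) (fun a _ => HomD.lin (v a))
  rw [Finset.card_eq_sum_ones]
  exact h

/-- the weight of a monomial of a weighted homogeneous polynomial -/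
theorem Hom_weight {J : Type} {lam : J → ℕ} {F : MvPolynomial J k} {d : ℕ}
    (hF : F.IsWeightedHomogeneous lam d) {m : J →₀ ℕ} (hm : m ∈ F.support) :
    ∑ j ∈ m.support, m j * lam j = d := by
  have h := hF (MvPolynomial.mem_support_iff.1 hm)
  rw [Finsupp.weight_apply] at h
  exact h

theorem Hom_weight_mul {J : Type} {lam : J → ℕ} {F : MvPolynomial J k} {d : ℕ}
    (hF : F.IsWeightedHomogeneous lam d) {m : J →₀ ℕ} (hm : m ∈ F.support) (e : ℕ) :
    ∑ j ∈ m.support, m j * (e * lam j) = e * d := by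
  rw [← Hom_weight hF hm, Finset.mul_sum]
  exact Finset.sum_congr rfl fun j _ => by ring

/-- Substitution in a weighted homogeneous polynomial. -/
theorem HomD.aeval {J : Type} (lam : J → ℕ) (F : MvPolynomial J k) (d : ℕ)
    (hF : F.IsWeightedHomogeneous lam d) (e : ℕ) (P : J → (MvPolynomial σ k)[X])
    (hP : ∀ j, HomD (e * lam j) (P j)) : HomD (e * d) (MvPolynomial.aeval P F) := by
  rw [MvPolynomial.aeval_def, MvPolynomial.eval₂_eq]
  refine HomD.sum _ _ fun m hm => ?_
  have h1 := HomD.prod m.support (fun j => m j * (e * lam j)) (fun j => P j ^ m j)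
    (fun j _ => (hP j).pow (m j))
  rw [Hom_weight_mul hF hm e] at h1
  have h2 := (HomD.CC (k := k) (σ := σ) (F.coeff m)).mul h1
  rw [zero_add] at h2
  exact h2

/-- The top coefficient of `F(P)` for monic `P`. -/
theorem coeff_aeval_top {R : Type} [CommRing R] [Algebra k R] [Nontrivial R] {J : Type}
    (lam : J → ℕ)
    (F : MvPolynomial J k) (d : ℕ) (hF : F.IsWeightedHomogeneous lam d) (e : ℕ) (P : J → R[X])
    (hm : ∀ j, (P j).Monic) (hP : ∀ j, (P j).natDegree = e * lam j) :
    (MvPolynomial.aeval P F : R[X]).coeff (e * d)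
      = algebraMap k R (MvPolynomial.eval (fun _ => 1) F) ∧
    (MvPolynomial.aeval P F : R[X]).natDegree ≤ e * d := by
  have h1 : ∀ m ∈ F.support, (∏ j ∈ m.support, P j ^ m j).Monic ∧
      (∏ j ∈ m.support, P j ^ m j).natDegree = e * d := by
    intro m hmF
    have h2 : ∀ j ∈ m.support, (P j ^ m j).Monic := fun j _ => (hm j).pow _
    refine ⟨monic_prod_of_monic _ _ h2, ?_⟩
    rw [natDegree_prod_of_monic _ _ h2, ← Hom_weight_mul hF hmF e]
    refine Finset.sum_congr rfl fun j _ => ?_
    rw [(hm j).natDegree_pow, hP j]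
  rw [MvPolynomial.aeval_def, MvPolynomial.eval₂_eq]
  constructor
  · rw [Polynomial.finsetSum_coeff, MvPolynomial.eval_eq, map_sum]
    refine Finset.sum_congr rfl fun m hmF => ?_
    rw [Polynomial.algebraMap_apply, Polynomial.coeff_C_mul]
    have h3 := (h1 m hmF).1.coeff_natDegree
    rw [(h1 m hmF).2] at h3
    rw [h3, mul_one]
    simp
  · refine Polynomial.natDegree_sum_le_of_forall_le _ _ fun m hmF => ?_
    rw [Polynomial.algebraMap_apply]
    refine (Polynomial.natDegree_C_mul_le _ _).trans ?_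
    rw [(h1 m hmF).2]

/-- A weighted homogeneous polynomial and scaling. -/
theorem aeval_scale {R : Type} [CommRing R] [Algebra k R] {J : Type} (lam : J → ℕ)
    (F : MvPolynomial J k) (d : ℕ) (hF : F.IsWeightedHomogeneous lam d) (r : R) (y : J → R) :
    MvPolynomial.aeval (fun j => r ^ lam j * y j) F = r ^ d * MvPolynomial.aeval y F := by
  rw [MvPolynomial.aeval_def, MvPolynomial.eval₂_eq, MvPolynomial.aeval_def,
    MvPolynomial.eval₂_eq, Finset.mul_sum]
  refine Finset.sum_congr rfl fun m hm => ?_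
  have h1 : ∏ j ∈ m.support, (r ^ lam j * y j) ^ m j =
      r ^ d * ∏ j ∈ m.support, y j ^ m j := by
    rw [← Hom_weight hF hm, ← Finset.prod_pow_eq_pow_sum, ← Finset.prod_mul_distrib]
    refine Finset.prod_congr rfl fun j _ => ?_
    rw [mul_pow, ← pow_mul, mul_comm (lam j)]
  rw [h1]
  ring

end T1
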