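import Pool.Agent.Lib.MP_23b606_ag.T1.C.Up
import Pool.Agent.Lib.MP_23b606_ag.T1.C.Hom

/-! C/Bad: the matrices `M^w` are injective for `w ≥ 2` and `ker M^1` is spanned by `(1,..,1)`. -/

set_option autoImplicit false

open Polynomial

namespace T1

section Key

variable {k : Type} [Field k] {J ι : Type}

/-- `F_i` vanishes at the family `X ^ λ_j`. -/
theorem WSys.aeval_X_pow (S : WSys k J ι) (i : ι) :
    MvPolynomial.aeval (fun j => (X : k[X]) ^ S.lam j) (S.F i) = 0 := by
  have h1 := aeval_scale (R := k[X]) S.lam (S.F i) (S.d i) (S.hom i) X (fun _ => 1)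
  simp only [mul_one] at h1
  rw [h1]
  have h2 : (fun _ : J => (1 : k[X])) = fun _ => algebraMap k k[X] 1 := by
    rw [map_one]
  have h3 : MvPolynomial.aeval (fun _ : J => algebraMap k k[X] 1) (S.F i) =
      algebraMap k k[X] (MvPolynomial.aeval (fun _ : J => (1 : k)) (S.F i)) :=
    MvPolynomial.aeval_algebraMap_apply k[X] (fun _ : J => (1 : k)) (S.F i)
  rw [h2, h3]
  have h4 : MvPolynomial.aeval (fun _ : J => (1 : k)) (S.F i) = 0 := S.one i
  rw [h4, map_zero, mul_zero]

variable [Fintype J] [Fintype ι]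

/-- The kernel of the matrix in weight `w`, if the higher matrices are injective. -/
theorem WSys.ker_form (S : WSys k J ι) (h1 : S.OnlyTriv 1)
    (hc : ∀ w, 1 ≤ w →
      Nat.card {j // S.lam j = w} = Nat.card {i // S.d i = w} + if w = 1 then 1 else 0)
    (w : ℕ) (hw : 1 ≤ w)
    (hM : ∀ w', w < w' → ∀ v : {j // S.lam j = w'} → k, (S.Mw w').mulVec v = 0 → v = 0)
    (v : {j // S.lam j = w} → k) (hv : (S.Mw w).mulVec v = 0) :
    ∃ b : k, ∀ j, (X : k[X]) ^ w + C (v j) = (X + C b) ^ w := by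
  classical
  rcases isEmpty_or_nonempty {j // S.lam j = w} with hE | ⟨⟨j0, hj0⟩⟩
  · exact ⟨0, fun j => (hE.false j).elim⟩
  obtain ⟨e, he⟩ : ∃ e : J → k, e = fun j => if h : S.lam j = w then v ⟨j, h⟩ else 0 := ⟨_, rfl⟩
  have he1 : ∀ j (h : S.lam j = w), e j = v ⟨j, h⟩ := fun j h => by
    rw [he]
    simp only
    rw [dif_pos h]
  have he2 : ∀ j, S.lam j ≠ w → e j = 0 := fun j h => by
    rw [he]
    simp only
    rw [dif_neg h]
  obtain ⟨P, hP⟩ : ∃ P : J → k[X], P = fun j => X ^ S.lam j + C (e j) := ⟨_, rfl⟩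
  have hPj : ∀ j, P j = X ^ S.lam j + C (e j) := fun j => by rw [hP]
  have hagree : ∀ j, S.lam j ≠ w → P j = X ^ S.lam j := fun j h => by
    rw [hPj, he2 j h, C_0, add_zero]
  have hF : ∀ i, S.d i ≤ w → MvPolynomial.aeval P (S.F i) = 0 := by
    intro i hi
    rcases Nat.eq_zero_or_pos (S.d i) with h0 | h0
    · rw [S.F_eq_zero i h0, map_zero]
    rcases lt_or_eq_of_le hi with hlt | rfl
    · rw [S.aeval_congr i P (fun j => X ^ S.lam j) (fun j hj => hagree j (by omega))]
      exact S.aeval_X_pow i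
    · have h2 := S.aeval_sub_congr i h0 P (fun j => X ^ S.lam j) (fun j hj => hagree j hj.ne)
      rw [S.aeval_X_pow i, sub_eq_iff_eq_add] at h2
      rw [h2, zero_sub, neg_add_eq_sub, ← Finset.sum_sub_distrib]
      have h3 := congrFun hv ⟨i, rfl⟩
      rw [Matrix.mulVec, dotProduct] at h3
      have h4 : ∀ j : {j // S.lam j = S.d i}, algebraMap k k[X] (S.Mx i j) * P j -
          algebraMap k k[X] (S.Mx i j) * X ^ S.lam j = C (S.Mw (S.d i) ⟨i, rfl⟩ j * v j) := by
        intro j
        rw [← mul_sub, hPj, add_sub_cancel_left, he1 j.1 j.2, C_mul]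
        rfl
      rw [Finset.sum_congr rfl fun j _ => h4 j, ← map_sum, h3]
      exact C_0
  obtain ⟨P', hP1, hP2⟩ := S.extend w hw (fun w' hw' => by
    rw [hc w' (by omega), if_neg (by omega), add_zero]) hM P (fun j _ => by
    rw [hPj]
    have hl : S.lam j ≠ 0 := by
      have := S.lam_pos j
      omega
    exact ⟨monic_X_pow_add_C _ hl, natDegree_X_pow_add_C⟩) hF
  obtain ⟨q, hq, hqP⟩ := h1 P' hP2
  have hq1 : q.natDegree = 1 := by
    have h2 := hP2.2.1 j0
    rw [hqP j0, hq.natDegree_pow, one_mul, hj0] at h2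
    exact Nat.eq_of_mul_eq_mul_left (by omega) (h2.trans (mul_one w).symm)
  refine ⟨q.coeff 0, fun j => ?_⟩
  have h2 := hP1 j.1 j.2.le
  rw [hqP, hPj, he1 j.1 j.2, j.2, hq.eq_X_add_C hq1] at h2
  exact h2.symm

end Key

variable {k : Type} [Field k] [CharZero k] {J ι : Type} [Fintype J] [Fintype ι]

theorem WSys.good (S : WSys k J ι) (h1 : S.OnlyTriv 1)
    (hc : ∀ w, 1 ≤ w →
      Nat.card {j // S.lam j = w} = Nat.card {i // S.d i = w} + if w = 1 then 1 else 0) :
    (∀ w, 2 ≤ w → ∀ v : {j // S.lam j = w} → k, (S.Mw w).mulVec v = 0 → v = 0) ∧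
    ∀ v : {j // S.lam j = 1} → k, (S.Mw 1).mulVec v = 0 → ∃ c : k, ∀ j, v j = c := by
  have hA : ∀ n w, 2 ≤ w → ∑ j, S.lam j < w + n →
      ∀ v : {j // S.lam j = w} → k, (S.Mw w).mulVec v = 0 → v = 0 := by
    intro n
    induction n with
    | zero =>
      intro w _ hW v _
      funext j
      exfalso
      have h2 : S.lam j.1 ≤ ∑ j, S.lam j :=
        Finset.single_le_sum (fun _ _ => Nat.zero_le _) (Finset.mem_univ j.1)
      have h3 := j.2
      omega
    | succ n ih =>
      intro w hw hW v hv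
      obtain ⟨b, hb⟩ := S.ker_form h1 hc w (by omega) (fun w' hw' => ih w' (by omega) (by omega)) v hv
      funext j
      have h2 := congrArg (fun p : k[X] => p.coeff (w - 1)) (hb j)
      simp only [coeff_add, coeff_X_pow, coeff_C, coeff_X_add_C_pow] at h2
      rw [if_neg (by omega), if_neg (by omega), zero_add] at h2
      have h3 : w - (w - 1) = 1 := by omega
      have h4 : w.choose (w - 1) = w := by
        obtain ⟨m, rfl⟩ : ∃ m, w = m + 1 := ⟨w - 1, by omega⟩
        rw [Nat.add_sub_cancel, Nat.choose_succ_self_right]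
      rw [h3, pow_one, h4] at h2
      have h5 : b = 0 := by
        rcases mul_eq_zero.1 h2.symm with h | h
        · exact h
        · exact absurd (Nat.cast_eq_zero.1 h) (by omega)
      have h6 := hb j
      rw [h5, C_0, add_zero, add_eq_left] at h6
      exact C_eq_zero.1 h6
  have hB : ∀ w, 2 ≤ w → ∀ v : {j // S.lam j = w} → k, (S.Mw w).mulVec v = 0 → v = 0 :=
    fun w hw => hA (∑ j, S.lam j) w hw (by omega)
  refine ⟨hB, fun v hv => ?_⟩
  obtain ⟨b, hb⟩ := S.ker_form h1 hc 1 le_rfl (fun w' hw' => hB w' (by omega)) v hv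
  refine ⟨b, fun j => ?_⟩
  have h2 := hb j
  rw [pow_one, pow_one] at h2
  exact C_injective (add_left_cancel h2)

end T1
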