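import Pool.Agent.Lib.MP_23b606_ag.T1.C.LocI

/-! C/LocZ: the local forms have only the zero `0`; the local bound. -/

set_option autoImplicit false

open Polynomial

namespace T1

variable {k : Type} [Field k] [IsAlgClosed k] [CharZero k] {J ι : Type} [Fintype J] [Fintype ι]

theorem WSys.hL_isHomogeneous (S : WSys k J ι) (j0 : J) (x0 : S.Var → k) (hx0 : S.IsPt x0)
    (i : S.LI) : (S.hL j0 x0 i).IsHomogeneous (S.ld i) := by
  classical
  rcases i with ⟨i, c, l⟩ | l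
  · have h1 : HomD (1 * S.d i)
        (MvPolynomial.aeval (S.Ql x0 l) (S.F i) : (MvPolynomial S.Var k)[X]) := by
      refine HomD.aeval S.lam (S.F i) (S.d i) (S.hom i) 1 _ fun j => ?_
      have h2 := HomD.prod_lin (k := k) (Finset.univ.filter
        (fun a : Fin (2 * S.lam j) => x0 ⟨j, a⟩ = WSys.sg l)) (fun a => (⟨j, a⟩ : S.Var))
      rw [(S.IsPt_card hx0 l j).1] at h2
      rw [one_mul, WSys.Ql]
      convert h2
    have h3 := (h1 c).1 (by rw [one_mul]; exact c.2.le)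
    rw [one_mul] at h3
    exact h3.C_mul _
  · rw [WSys.hL, Sum.elim_inr]
    split_ifs
    · exact MvPolynomial.IsHomogeneous.sum _ _ _ fun a _ => MvPolynomial.isHomogeneous_X _ _
    · exact MvPolynomial.IsHomogeneous.sum _ _ _ fun a _ =>
        (MvPolynomial.isHomogeneous_X _ _).C_mul _

/-- On each of the two sets of roots a zero is constant. -/
theorem WSys.hL_zero_const (S : WSys k J ι) (j0 : J) (h1 : S.OnlyTriv 1) (x0 : S.Var → k)
    (hx0 : S.IsPt x0) (y : S.Var → k)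
    (hy : ∀ i, MvPolynomial.eval y (S.hL j0 x0 i) = 0) (l : Fin 2) :
    ∃ β : k, ∀ (j : J) (a : Fin (2 * S.lam j)), x0 ⟨j, a⟩ = WSys.sg l → y ⟨j, a⟩ = β := by
  classical
  set Q : J → k[X] := fun j => ∏ a ∈ Finset.univ.filter
    (fun a : Fin (2 * S.lam j) => x0 ⟨j, a⟩ = WSys.sg l), (X - C (y ⟨j, a⟩)) with hQ
  have hQm : ∀ j, (Q j).Monic := fun j => monic_prod_of_monic _ _ fun _ _ => monic_X_sub_C _
  have hQd : ∀ j, (Q j).natDegree = 1 * S.lam j := by
    intro j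
    rw [hQ, natDegree_prod_of_monic _ _ fun _ _ => monic_X_sub_C _]
    simp only [natDegree_X_sub_C, Finset.sum_const, smul_eq_mul, mul_one, one_mul]
    exact (S.IsPt_card hx0 l j).1
  have hmap : ∀ j, mapAlgHom (MvPolynomial.aeval y : MvPolynomial S.Var k →ₐ[k] k)
      (S.Ql x0 l j) = Q j := by
    intro j
    rw [coe_mapAlgHom, WSys.Ql, Polynomial.map_prod]
    refine Finset.prod_congr (by congr) fun a _ => ?_
    rw [Polynomial.map_sub, map_X, map_C]
    congr 2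
    exact MvPolynomial.aeval_X _ _
  have hae : ∀ i, MvPolynomial.aeval Q (S.F i) =
      mapAlgHom (MvPolynomial.aeval y : MvPolynomial S.Var k →ₐ[k] k)
        (MvPolynomial.aeval (S.Ql x0 l) (S.F i)) := by
    intro i
    rw [MvPolynomial.comp_aeval_apply]
    congr 2
    funext j
    exact (hmap j).symm
  have hz : ∀ i, MvPolynomial.aeval Q (S.F i) = 0 := by
    intro i
    have htop := coeff_aeval_top S.lam (S.F i) (S.d i) (S.hom i) 1 Q hQm hQd
    ext c
    rw [coeff_zero]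
    rcases lt_trichotomy c (1 * S.d i) with hc | hc | hc
    · rw [hae i, coe_mapAlgHom, coeff_map]
      have hc' : c < S.d i := by omega
      have h2 := hy (Sum.inl ⟨i, (⟨c, hc'⟩, l)⟩)
      have h3 : S.hL j0 x0 (Sum.inl ⟨i, (⟨c, hc'⟩, l)⟩) =
        MvPolynomial.C ((2 * WSys.sg l) ^ S.d i) *
        (MvPolynomial.aeval (S.Ql x0 l) (S.F i) : (MvPolynomial S.Var k)[X]).coeff c := rfl
      rw [h3, map_mul, MvPolynomial.eval_C] at h2
      have h4 : ((2 * WSys.sg l) ^ S.d i : k) ≠ 0 := by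
        refine pow_ne_zero _ (mul_ne_zero two_ne_zero ?_)
        rcases WSys.sg_cases (k := k) l with h | h <;> rw [h]
        · exact one_ne_zero
        · exact neg_ne_zero.2 one_ne_zero
      exact (mul_eq_zero.1 h2).resolve_left h4
    · rw [hc, htop.1, S.one i, map_zero]
    · exact coeff_eq_zero_of_natDegree_lt (lt_of_le_of_lt htop.2 hc)
  obtain ⟨q, hqm, hq⟩ := h1 Q ⟨hQm, hQd, hz⟩
  have hqd : q.natDegree = 1 := by
    have h2 := hQd j0
    rw [hq j0, hqm.natDegree_pow, one_mul] at h2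
    have h3 := S.lam_pos j0
    exact Nat.eq_of_mul_eq_mul_left h3 (by rw [h2, mul_one])
  obtain ⟨β, hβ⟩ : ∃ β, q = X - C β := by
    refine ⟨-q.coeff 0, ?_⟩
    have h2 := hqm.eq_X_add_C hqd
    rw [C_neg, sub_neg_eq_add]
    exact h2
  refine ⟨β, fun j a ha => ?_⟩
  have h2 : (Q j).eval (y ⟨j, a⟩) = 0 := by
    rw [hQ]
    show eval _ (∏ a ∈ _, _) = 0
    rw [eval_prod]
    refine Finset.prod_eq_zero (Finset.mem_filter.2 ⟨Finset.mem_univ a, ha⟩) ?_
    rw [Polynomial.eval_sub, eval_X, eval_C, sub_self]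
  rw [hq j, hβ, Polynomial.eval_pow, Polynomial.eval_sub, eval_X, eval_C] at h2
  exact sub_eq_zero.1 (pow_eq_zero_iff (Nat.one_le_iff_ne_zero.1 (S.lam_pos j)) |>.1 h2)

theorem WSys.hL_zero (S : WSys k J ι) (j0 : J) (h1 : S.OnlyTriv 1) (x0 : S.Var → k)
    (hx0 : S.IsPt x0) (y : S.Var → k)
    (hy : ∀ i, MvPolynomial.eval y (S.hL j0 x0 i) = 0) : y = 0 := by
  classical
  obtain ⟨β0, hβ0⟩ := S.hL_zero_const j0 h1 x0 hx0 y hy 0
  obtain ⟨β1, hβ1⟩ := S.hL_zero_const j0 h1 x0 hx0 y hy 1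
  have hs0 : (WSys.sg 0 : k) = 1 := if_pos rfl
  have hs1 : (WSys.sg 1 : k) = -1 := if_neg one_ne_zero
  have hc0 := S.IsPt_card hx0 0 j0
  -- sums
  have hsum : ∀ f : Fin (2 * S.lam j0) → k, ∀ b0 b1 : k,
      (∀ a, x0 ⟨j0, a⟩ = WSys.sg 0 → f a = b0) → (∀ a, ¬ x0 ⟨j0, a⟩ = WSys.sg 0 → f a = b1) →
      ∑ a, f a = S.lam j0 * (b0 + b1) := by
    intro f b0 b1 h2 h3
    rw [← Finset.sum_filter_add_sum_filter_not Finset.univ
      (fun a : Fin (2 * S.lam j0) => x0 ⟨j0, a⟩ = WSys.sg 0) f,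
      Finset.sum_congr rfl fun a ha => h2 a (Finset.mem_filter.1 ha).2,
      Finset.sum_congr rfl fun a ha => h3 a (Finset.mem_filter.1 ha).2,
      Finset.sum_const, Finset.sum_const, hc0.1, hc0.2, nsmul_eq_mul, nsmul_eq_mul]
    ring
  have hne : ∀ a : Fin (2 * S.lam j0), ¬ x0 ⟨j0, a⟩ = WSys.sg 0 → x0 ⟨j0, a⟩ = -1 := by
    intro a ha
    rcases hx0.1 ⟨j0, a⟩ with h | h
    · exact absurd (h.trans hs0.symm) ha
    · exact h
  have hl : (S.lam j0 : k) ≠ 0 := Nat.cast_ne_zero.2 (by have := S.lam_pos j0; omega)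
  have e0 : β0 + β1 = 0 := by
    have h2 := hy (Sum.inr 0)
    rw [WSys.hL, Sum.elim_inr, if_pos rfl, map_sum] at h2
    simp only [MvPolynomial.eval_X] at h2
    rw [hsum (fun a => y ⟨j0, a⟩) β0 β1 (fun a ha => hβ0 j0 a ha)
      (fun a ha => hβ1 j0 a (by rw [hne a ha, hs1]))] at h2
    exact (mul_eq_zero.1 h2).resolve_left hl
  have e1 : 2 * β0 + -(2 * β1) = 0 := by
    have h2 := hy (Sum.inr 1)
    rw [WSys.hL, Sum.elim_inr, if_neg one_ne_zero, map_sum] at h2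
    simp only [map_mul, MvPolynomial.eval_X, MvPolynomial.eval_C] at h2
    rw [hsum (fun a => 2 * x0 ⟨j0, a⟩ * y ⟨j0, a⟩) (2 * β0) (-(2 * β1))
      (fun a ha => by
        show 2 * x0 ⟨j0, a⟩ * y ⟨j0, a⟩ = _
        rw [hβ0 j0 a ha, ha, hs0]; ring)
      (fun a ha => by
        show 2 * x0 ⟨j0, a⟩ * y ⟨j0, a⟩ = _
        rw [hβ1 j0 a (by rw [hne a ha, hs1]), hne a ha]; ring)] at h2
    exact (mul_eq_zero.1 h2).resolve_left hl
  have f0 : β0 = 0 := by
    have h2 : (4 : k) * β0 = 0 := by linear_combination 2 * e0 + e1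
    exact (mul_eq_zero.1 h2).resolve_left (by norm_num)
  have f1 : β1 = 0 := by
    rw [f0, zero_add] at e0
    exact e0
  funext s
  obtain ⟨j, a⟩ := s
  rcases hx0.1 ⟨j, a⟩ with h | h
  · rw [hβ0 j a (h.trans hs0.symm), f0]
    rfl
  · rw [hβ1 j a (h.trans hs1.symm), f1]
    rfl

theorem WSys.loc_II (S : WSys k J ι) (j0 : J) (h1 : S.OnlyTriv 1)
    (hs : ∑ j, S.lam j = 1 + ∑ i, S.d i) (x0 : S.Var → k) (hx0 : S.IsPt x0) (M : ℕ) :
    Module.finrank k (MvPolynomial S.Var k ⧸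
      (S.II j0 ⊔ RingHom.ker (MvPolynomial.eval x0 : MvPolynomial S.Var k →+* k) ^ M))
      ≤ ∏ i, (S.d i).factorial ^ 2 := by
  have hc : Fintype.card S.Var = Fintype.card S.LI := by
    simp only [Fintype.card_sigma, Fintype.card_sum, Fintype.card_fin, Fintype.card_prod]
    rw [← Finset.mul_sum, ← Finset.sum_mul, hs]
    ring
  have hε : ∀ i, 1 ≤ S.ld i := by
    rintro (⟨i, c, l⟩ | l)
    · have := c.2
      show 1 ≤ S.d i - c
      omega
    · exact le_rfl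
  have hp : ∏ i, S.ld i = ∏ i, (S.d i).factorial ^ 2 := by
    rw [Fintype.prod_sum_type, Fintype.prod_sigma]
    have h2 : ∏ l : Fin 2, S.ld (Sum.inr l) = 1 := Finset.prod_eq_one fun _ _ => rfl
    rw [h2, mul_one]
    refine Finset.prod_congr rfl fun i _ => ?_
    rw [Fintype.prod_prod_type]
    have h3 : ∀ c : Fin (S.d i), ∏ l : Fin 2, S.ld (Sum.inl ⟨i, (c, l)⟩) =
        (S.d i - (c : ℕ)) ^ 2 := by
      intro c
      rw [Fin.prod_univ_two, pow_two]
      rfl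
    rw [Finset.prod_congr rfl fun c _ => h3 c, Finset.prod_pow,
      Fin.prod_univ_eq_prod_range (fun c => S.d i - c) (S.d i), ← Nat.descFactorial_eq_prod_range,
      Nat.descFactorial_self]
  rw [← hp]
  exact loc_bound hc (S.II j0) x0 (S.hL j0 x0) S.ld hε (S.hL_isHomogeneous j0 x0 hx0)
    (fun y hy => S.hL_zero j0 h1 x0 hx0 y hy) (S.hL_ini j0 x0 hx0) M

end T1
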