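import Pool.Agent.Lib.MP_23b606_ag.T1.C.Sys
import Pool.Agent.Lib.MP_23b606_ag.T1.C.Hom

/-! C/Quad: a zero of the forms `F_i(P)_c` comes from a quadratic polynomial `(X - r)(X - s)`. -/

set_option autoImplicit false

open Polynomial

namespace T1

variable {k : Type} [Field k] [IsAlgClosed k] [CharZero k] {J ι : Type} [Fintype J] [Fintype ι]

theorem Quad_map (S : WSys k J ι) (x : S.Var → k) (j : J) :
    Polynomial.map (MvPolynomial.eval x) (S.Pg j) =
      ∏ a : Fin (2 * S.lam j), (X - C (x ⟨j, a⟩)) := by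
  rw [WSys.Pg, Polynomial.map_prod]
  refine Finset.prod_congr rfl fun a _ => ?_
  rw [Polynomial.map_sub, map_X, map_C, MvPolynomial.eval_X]

theorem Quad_mapF (S : WSys k J ι) (x : S.Var → k) (i : ι) :
    Polynomial.map (MvPolynomial.eval x) (S.Fg i) =
      MvPolynomial.aeval (fun j => ∏ a : Fin (2 * S.lam j), (X - C (x ⟨j, a⟩))) (S.F i) := by
  have h : ((Polynomial.mapAlgHom (MvPolynomial.aeval x : MvPolynomial S.Var k →ₐ[k] k)).comp
      (MvPolynomial.aeval S.Pg)) =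
      (MvPolynomial.aeval (fun j => ∏ a : Fin (2 * S.lam j), (X - C (x ⟨j, a⟩))) :
        MvPolynomial J k →ₐ[k] k[X]) := by
    refine MvPolynomial.algHom_ext fun j => ?_
    rw [AlgHom.comp_apply, MvPolynomial.aeval_X, MvPolynomial.aeval_X]
    exact Quad_map S x j
  exact congrArg (fun g : MvPolynomial J k →ₐ[k] k[X] => g (S.F i)) h

/-- The polynomials with the roots `x` are a solution of degree `2`. -/
theorem Quad_sol (S : WSys k J ι) (x : S.Var → k)
    (hx : ∀ y : Σ i : ι, Fin (2 * S.d i), MvPolynomial.eval x ((S.Fg y.1).coeff y.2) = 0) :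
    S.Sol 2 (fun j => ∏ a : Fin (2 * S.lam j), (X - C (x ⟨j, a⟩))) := by
  have hm : ∀ j, (∏ a : Fin (2 * S.lam j), (X - C (x ⟨j, a⟩))).Monic := fun j =>
    monic_prod_of_monic _ _ fun a _ => monic_X_sub_C _
  have hd : ∀ j, (∏ a : Fin (2 * S.lam j), (X - C (x ⟨j, a⟩))).natDegree = 2 * S.lam j := by
    intro j
    rw [natDegree_prod_of_monic _ _ fun a _ => monic_X_sub_C _]
    simp
  refine ⟨hm, hd, fun i => ?_⟩
  obtain ⟨h1, h2⟩ := coeff_aeval_top (k := k) (R := k) S.lam (S.F i) (S.d i) (S.hom i) 2 _ hm hd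
  ext c
  rw [coeff_zero]
  rcases lt_trichotomy c (2 * S.d i) with h | h | h
  · rw [← Quad_mapF, coeff_map]
    exact hx ⟨i, ⟨c, h⟩⟩
  · rw [h, h1, S.one i, map_zero]
  · exact coeff_eq_zero_of_natDegree_lt (lt_of_le_of_lt h2 h)

/-- The roots: `λ_j` times the two roots of a quadratic polynomial. -/
theorem WSys.quad (S : WSys k J ι) (h2 : S.OnlyTriv 2) (x : S.Var → k)
    (hx : ∀ y : Σ i : ι, Fin (2 * S.d i), MvPolynomial.eval x ((S.Fg y.1).coeff y.2) = 0) :
    ∃ r s : k, ∀ j, (Finset.univ.val.map fun a : Fin (2 * S.lam j) => x ⟨j, a⟩) =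
      S.lam j • ({r, s} : Multiset k) := by
  obtain ⟨q, hq, hP⟩ := h2 _ (Quad_sol S x hx)
  rcases isEmpty_or_nonempty J with hJ | ⟨⟨j1⟩⟩
  · exact ⟨0, 0, fun j => isEmptyElim j⟩
  have h1 : q.natDegree = 2 := by
    have h3 := congrArg natDegree (hP j1)
    rw [hq.natDegree_pow, (Quad_sol S x hx).2.1 j1, mul_comm 2] at h3
    exact (Nat.eq_of_mul_eq_mul_left (S.lam_pos j1) h3).symm
  have h4 : q.roots.card = 2 := by
    rw [← h1]
    exact (splits_iff_card_roots.1 (IsAlgClosed.splits q))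
  obtain ⟨r, s, hrs⟩ := Multiset.card_eq_two.1 h4
  refine ⟨r, s, fun j => ?_⟩
  rw [← hrs, ← roots_pow, ← hP j]
  have h5 : (∏ a : Fin (2 * S.lam j), (X - C (x ⟨j, a⟩))) =
      ((Finset.univ.val.map fun a : Fin (2 * S.lam j) => x ⟨j, a⟩).map
        fun a => X - C a).prod := by
    rw [Multiset.map_map]
    rfl
  show _ = (∏ a : Fin (2 * S.lam j), (X - C (x ⟨j, a⟩))).roots
  rw [h5, roots_multiset_prod_X_sub_C]

/-- The power sums at such a zero. -/
theorem Quad_ps (S : WSys k J ι) (x : S.Var → k) {r s : k} {j : J}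
    (h : (Finset.univ.val.map fun a : Fin (2 * S.lam j) => x ⟨j, a⟩) =
      S.lam j • ({r, s} : Multiset k)) (l : ℕ) :
    MvPolynomial.eval x (S.ps j l) = (S.lam j : k) * (r ^ l + s ^ l) := by
  have h1 : MvPolynomial.eval x (S.ps j l) =
      ((Finset.univ.val.map fun a : Fin (2 * S.lam j) => x ⟨j, a⟩).map fun y => y ^ l).sum := by
    rw [Multiset.map_map, WSys.ps, map_sum]
    refine Finset.sum_congr rfl fun a _ => ?_
    rw [map_pow, MvPolynomial.eval_X]
    rfl
  rw [h1, h, Multiset.map_nsmul, Multiset.sum_nsmul, nsmul_eq_mul]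
  simp

end T1
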