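import Pool.Agent.Lib.MP_23b606_ag.T1.C.Sys
import Pool.Agent.Lib.MP_23b606_ag.T1.C.Hom
import Pool.Agent.Lib.MP_23b606_ag.T1.C.Quad

/-! C/Zer: the zeros of the ideal of the count. -/

set_option autoImplicit false

open Polynomial

namespace T1

variable {k : Type} [Field k] [IsAlgClosed k] [CharZero k] {J ι : Type} [Fintype J] [Fintype ι]

theorem Zer_card {α : Type} [Fintype α] (x : α → k) (b : k) [DecidableEq k] :
    Nat.card {a : α // x a = b} = Multiset.count b (Finset.univ.val.map x) := by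
  classical
  rw [Multiset.count_map, Nat.card_eq_fintype_card, Fintype.card_subtype]
  show (Multiset.filter (fun a => x a = b) Finset.univ.val).card = _
  congr 1
  refine Multiset.filter_congr fun a _ => ⟨fun h => h.symm, fun h => h.symm⟩

theorem WSys.isPt_of_zero (S : WSys k J ι) (j0 : J) (h2 : S.OnlyTriv 2) (x : S.Var → k)
    (hx : ∀ f ∈ S.II j0, MvPolynomial.eval x f = 0) : S.IsPt x := by
  classical
  have h0 : ∀ i : S.GI, MvPolynomial.eval x (S.G j0 i) = S.tg j0 i := by
    intro i
    have h1 := hx _ (Ideal.subset_span (Set.mem_range_self i))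
    rw [map_sub, MvPolynomial.eval_C] at h1
    exact sub_eq_zero.1 h1
  obtain ⟨r, s, hrs⟩ := S.quad h2 x fun y => h0 (Sum.inl y)
  have hl : (S.lam j0 : k) ≠ 0 := Nat.cast_ne_zero.2 (Nat.one_le_iff_ne_zero.1 (S.lam_pos j0))
  have e1 : (S.lam j0 : k) * (r + s) = 0 := by
    have h1 := h0 (Sum.inr 0)
    have h3 : MvPolynomial.eval x (S.ps j0 1) = 0 := h1
    rw [Quad_ps S x (hrs j0), pow_one, pow_one] at h3
    exact h3
  have e2 : (S.lam j0 : k) * (r ^ 2 + s ^ 2) = 2 * S.lam j0 := by
    have h1 := h0 (Sum.inr 1)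
    have h3 : MvPolynomial.eval x (S.ps j0 2) = 2 * S.lam j0 := h1
    rw [Quad_ps S x (hrs j0)] at h3
    exact h3
  have e3 : s = -r := by
    have := (mul_eq_zero.1 e1).resolve_left hl
    linear_combination this
  have e4 : r ^ 2 = 1 := by
    have h3 : (S.lam j0 : k) * (2 * (r ^ 2 - 1)) = 0 := by
      rw [e3] at e2
      linear_combination e2
    have h4 := (mul_eq_zero.1 ((mul_eq_zero.1 h3).resolve_left hl)).resolve_left two_ne_zero
    linear_combination h4
  have e5 : ({r, s} : Multiset k) = {1, -1} := by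
    rw [pow_two] at e4
    rcases mul_self_eq_one_iff.1 e4 with h | h
    · rw [e3, h]
    · rw [e3, h, neg_neg, Multiset.pair_comm]
  rw [e5] at hrs
  have e6 : (1 : k) ≠ -1 := by
    intro h
    have h3 : (2 : k) = 0 := by linear_combination h
    exact two_ne_zero h3
  refine ⟨?_, fun j => ⟨?_, ?_⟩⟩
  · rintro ⟨j, a⟩
    have h3 : x ⟨j, a⟩ ∈ (Finset.univ.val.map fun a : Fin (2 * S.lam j) => x ⟨j, a⟩) :=
      Multiset.mem_map.2 ⟨a, Finset.mem_univ a, rfl⟩
    rw [hrs j] at h3
    have h4 := Multiset.mem_of_mem_nsmul h3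
    simpa using h4
  · rw [Zer_card (fun a : Fin (2 * S.lam j) => x ⟨j, a⟩) 1, hrs j, Multiset.count_nsmul]
    rw [Multiset.insert_eq_cons, Multiset.count_cons_self, Multiset.count_singleton, if_neg e6]
    simp
  · rw [Zer_card (fun a : Fin (2 * S.lam j) => x ⟨j, a⟩) (-1), hrs j, Multiset.count_nsmul]
    rw [Multiset.insert_eq_cons, Multiset.count_cons_of_ne e6.symm, Multiset.count_singleton,
      if_pos rfl]
    simp

theorem WSys.card_pts (S : WSys k J ι) :
    ∃ T : Finset (S.Var → k), (∀ x, S.IsPt x → x ∈ T) ∧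
      T.card ≤ ∏ j, (2 * S.lam j).choose (S.lam j) := by
  classical
  refine ⟨(Fintype.piFinset fun j =>
    Finset.powersetCard (S.lam j) (Finset.univ : Finset (Fin (2 * S.lam j)))).image
      (fun A s => if s.2 ∈ A s.1 then (1 : k) else -1), ?_, ?_⟩
  · intro x hx
    rw [Finset.mem_image]
    refine ⟨fun j => Finset.univ.filter fun a => x ⟨j, a⟩ = 1, ?_, ?_⟩
    · rw [Fintype.mem_piFinset]
      intro j
      rw [Finset.mem_powersetCard]
      refine ⟨Finset.subset_univ _, ?_⟩
      rw [← Fintype.card_subtype, ← Nat.card_eq_fintype_card]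
      exact (hx.2 j).1
    · funext ⟨j, a⟩
      by_cases h : x ⟨j, a⟩ = 1
      · rw [if_pos (by simp [h]), h]
      · rw [if_neg (by simp [h])]
        exact ((hx.1 _).resolve_left h).symm
  · refine Finset.card_image_le.trans (le_of_eq ?_)
    rw [Fintype.card_piFinset]
    refine Finset.prod_congr rfl fun j _ => ?_
    rw [Finset.card_powersetCard, Finset.card_univ, Fintype.card_fin]

end T1
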