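import Pool.Agent.Lib.MP_23b606_ag.T1.C.Glob
import Pool.Agent.Lib.MP_23b606_ag.T1.C.Zer
import Pool.Agent.Lib.MP_23b606_ag.T1.C.LocZ
import Pool.Agent.Lib.MP_23b606_ag.T1.Z.Crt

/-! C/Cnt: the count of conics. -/

set_option autoImplicit false

namespace T1

variable {k : Type} [Field k] [IsAlgClosed k] [CharZero k] {J ι : Type} [Fintype J] [Fintype ι]

theorem WSys.count (S : WSys k J ι) [Nonempty J] (h1 : S.OnlyTriv 1) (h2 : S.OnlyTriv 2)
    (hs : ∑ j, S.lam j = 1 + ∑ i, S.d i) :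
    2 * ∏ i, (2 * S.d i).choose (S.d i) ≤ ∏ j, (2 * S.lam j).choose (S.lam j) := by
  classical
  obtain ⟨j0⟩ := ‹Nonempty J›
  haveI := S.finite_II j0 h2
  obtain ⟨T, hT, hTc⟩ := S.card_pts
  have h3 := finrank_le_card_mul (S.II j0) T (fun x hx => hT x (S.isPt_of_zero j0 h2 x hx))
    (∏ i, (S.d i).factorial ^ 2)
    (fun x hx M => S.loc_II j0 h1 hs x (S.isPt_of_zero j0 h2 x hx) M)
  rw [S.finrank_II j0 h2 hs] at h3
  have h4 : ∏ i, (2 * S.d i).factorial =
      (∏ i, (2 * S.d i).choose (S.d i)) * ∏ i, (S.d i).factorial ^ 2 := by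
    rw [← Finset.prod_mul_distrib]
    refine Finset.prod_congr rfl fun i _ => ?_
    have h := Nat.choose_mul_factorial_mul_factorial (n := 2 * S.d i) (k := S.d i) (by omega)
    rw [show 2 * S.d i - S.d i = S.d i by omega] at h
    rw [← h]
    ring
  have h5 : 0 < ∏ i, (S.d i).factorial ^ 2 :=
    Finset.prod_pos fun i _ => pow_pos (Nat.factorial_pos _) 2
  refine Nat.le_of_mul_le_mul_right ?_ h5
  calc 2 * (∏ i, (2 * S.d i).choose (S.d i)) * ∏ i, (S.d i).factorial ^ 2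
      = 2 * ∏ i, (2 * S.d i).factorial := by rw [h4, mul_assoc]
    _ ≤ T.card * ∏ i, (S.d i).factorial ^ 2 := h3
    _ ≤ _ := Nat.mul_le_mul_right _ hTc

end T1
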