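import Mathlib

/-! C/Cvx: majorisation and strict convexity. -/

set_option autoImplicit false

namespace T1

theorem cvx_expand (b : ℕ → ℝ) (hb : b 0 = 0) (N x : ℕ) (hx : x ≤ N + 1) :
    b x = x * b 1 + ∑ v ∈ Finset.range N, (b (v + 2) - 2 * b (v + 1) + b v) *
      ((x - (v + 1) : ℕ) : ℝ) := by
  induction x with
  | zero =>
    rw [hb, Finset.sum_eq_zero]
    · simp
    · intro v _
      rw [Nat.zero_sub]
      simp
  | succ x ih =>
    have ih' := ih (by omega)
    have h1 : ∀ v, ((x + 1 - (v + 1) : ℕ) : ℝ) =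
        ((x - (v + 1) : ℕ) : ℝ) + if v < x then 1 else 0 := by
      intro v
      split_ifs with h
      · rw [show x + 1 - (v + 1) = (x - (v + 1)) + 1 by omega]
        push_cast
        ring
      · rw [show x + 1 - (v + 1) = x - (v + 1) by omega, add_zero]
    have h2 : ∑ v ∈ Finset.range N, (b (v + 2) - 2 * b (v + 1) + b v) *
        (if v < x then (1 : ℝ) else 0) = b (x + 1) - b x - b 1 := by
      have h3 : ∀ v ∈ Finset.range N, (b (v + 2) - 2 * b (v + 1) + b v) *
          (if v < x then (1 : ℝ) else 0) =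
          if v < x then (b (v + 2) - 2 * b (v + 1) + b v) else 0 := by
        intro v _
        split_ifs <;> simp
      rw [Finset.sum_congr rfl h3, ← Finset.sum_filter]
      have h4 : (Finset.range N).filter (fun v => v < x) = Finset.range x := by
        ext v
        simp only [Finset.mem_filter, Finset.mem_range]
        omega
      rw [h4]
      have h5 : ∀ v, b (v + 2) - 2 * b (v + 1) + b v =
          (b (v + 1 + 1) - b (v + 1)) - (b (v + 1) - b v) := fun v => by ring
      simp only [h5]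
      rw [Finset.sum_range_sub (fun v => b (v + 1) - b v) x, hb]
      ring
    simp only [h1, mul_add, Finset.sum_add_distrib]
    rw [h2]
    push_cast
    linarith

theorem cvx_ind (w x : ℕ) : (if x = w + 1 then (1 : ℝ) else 0) =
    ((x - w : ℕ) : ℝ) - 2 * ((x - (w + 1) : ℕ) : ℝ) + ((x - (w + 2) : ℕ) : ℝ) := by
  split_ifs with h
  · subst h
    rw [show w + 1 - w = 1 by omega, show w + 1 - (w + 1) = 0 by omega,
      show w + 1 - (w + 2) = 0 by omega]
    simp
  · by_cases h1 : x ≤ w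
    · rw [show x - w = 0 by omega, show x - (w + 1) = 0 by omega, show x - (w + 2) = 0 by omega]
      simp
    · obtain ⟨y, rfl⟩ := Nat.exists_eq_add_of_le (show w + 2 ≤ x by omega)
      rw [show w + 2 + y - w = y + 2 by omega, show w + 2 + y - (w + 1) = y + 1 by omega,
        show w + 2 + y - (w + 2) = y by omega]
      push_cast
      ring

theorem cvx_cb (v : ℕ) : 0 < Real.log (Nat.centralBinom (v + 2)) -
    2 * Real.log (Nat.centralBinom (v + 1)) + Real.log (Nat.centralBinom v) := by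
  have hA : (0 : ℝ) < Nat.centralBinom v := by exact_mod_cast Nat.centralBinom_pos v
  have hB : (0 : ℝ) < Nat.centralBinom (v + 1) := by exact_mod_cast Nat.centralBinom_pos (v + 1)
  have hC : (0 : ℝ) < Nat.centralBinom (v + 2) := by exact_mod_cast Nat.centralBinom_pos (v + 2)
  have h1 : ((v : ℝ) + 1) * Nat.centralBinom (v + 1) = 2 * (2 * v + 1) * Nat.centralBinom v := by
    exact_mod_cast Nat.succ_mul_centralBinom_succ v
  have h2 : ((v : ℝ) + 2) * Nat.centralBinom (v + 2) =
      2 * (2 * v + 3) * Nat.centralBinom (v + 1) := by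
    have := Nat.succ_mul_centralBinom_succ (v + 1)
    have h3 : (((v + 1 + 1 : ℕ) : ℝ)) * Nat.centralBinom (v + 1 + 1) =
      ((2 * (2 * (v + 1) + 1) : ℕ) : ℝ) * Nat.centralBinom (v + 1) := by exact_mod_cast this
    push_cast at h3
    rw [show v + 1 + 1 = v + 2 from rfl] at h3
    linarith
  set A : ℝ := (Nat.centralBinom v : ℝ)
  set B : ℝ := (Nat.centralBinom (v + 1) : ℝ)
  set C : ℝ := (Nat.centralBinom (v + 2) : ℝ)
  have hv : (0 : ℝ) ≤ v := Nat.cast_nonneg v
  have h3 : B ^ 2 < C * A := by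
    have h4 : ((v : ℝ) + 2) * (2 * v + 1) * (C * A) = (2 * v + 3) * (v + 1) * B ^ 2 := by
      have h5 : (2 * (2 * v + 1) * A) * ((v + 2) * C) = ((v + 1) * B) * (2 * (2 * v + 3) * B) := by
        rw [← h1, h2]
      linarith
    have h6 : ((v : ℝ) + 2) * (2 * v + 1) < (2 * v + 3) * (v + 1) := by nlinarith
    have h7 : (0 : ℝ) < (v + 2) * (2 * v + 1) := by positivity
    have h8 : ((v : ℝ) + 2) * (2 * v + 1) * B ^ 2 < (v + 2) * (2 * v + 1) * (C * A) := by
      rw [h4]
      exact mul_lt_mul_of_pos_right h6 (by positivity)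
    exact lt_of_mul_lt_mul_left h8 h7.le
  have h9 := Real.log_lt_log (by positivity) h3
  rw [Real.log_pow, Real.log_mul hC.ne' hA.ne'] at h9
  push_cast at h9
  linarith

theorem counts_eq {J ι : Type} [Fintype J] [Fintype ι] (lam : J → ℕ) (d : ι → ℕ)
    (hs : ∑ j, lam j = 1 + ∑ i, d i)
    (hmaj : ∀ w, 1 ≤ w → ∑ j, (lam j - w) ≤ ∑ i, (d i - w))
    (hcnt : 2 * ∏ i, (2 * d i).choose (d i) ≤ ∏ j, (2 * lam j).choose (lam j)) (w : ℕ)
    (hw : 1 ≤ w) :
    Nat.card {j // lam j = w} = Nat.card {i // d i = w} + if w = 1 then 1 else 0 := by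
  classical
  -- the differences
  set D : ℕ → ℝ := fun w => ∑ i, ((d i - w : ℕ) : ℝ) + ((1 - w : ℕ) : ℝ) -
    ∑ j, ((lam j - w : ℕ) : ℝ) with hD
  have hD0 : D 0 = 0 := by
    simp only [hD, Nat.sub_zero]
    have h1 : ((∑ j, lam j : ℕ) : ℝ) = ((1 + ∑ i, d i : ℕ) : ℝ) := by rw [hs]
    push_cast at h1
    rw [h1]
    push_cast
    ring
  have hDpos : ∀ v, 0 ≤ D (v + 1) := by
    intro v
    have h1 := hmaj (v + 1) (by omega)
    have h2 : ((∑ j, (lam j - (v + 1)) : ℕ) : ℝ) ≤ ((∑ i, (d i - (v + 1)) : ℕ) : ℝ) := by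
      exact_mod_cast h1
    rw [Nat.cast_sum, Nat.cast_sum] at h2
    simp only [hD]
    rw [show 1 - (v + 1) = 0 by omega, Nat.cast_zero]
    linarith
  set b : ℕ → ℝ := fun x => Real.log (Nat.centralBinom x) with hb
  have hb0 : b 0 = 0 := by simp [hb]
  obtain ⟨N, hNl, hNd⟩ : ∃ N, (∀ j, lam j ≤ N + 1) ∧ ∀ i, d i ≤ N + 1 := by
    refine ⟨∑ j, lam j + ∑ i, d i, fun j => ?_, fun i => ?_⟩
    · have := Finset.single_le_sum (f := lam) (fun _ _ => Nat.zero_le _) (Finset.mem_univ j)
      omega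
    · have := Finset.single_le_sum (f := d) (fun _ _ => Nat.zero_le _) (Finset.mem_univ i)
      omega
  have hlog : ∑ i, b (d i) + b 1 ≤ ∑ j, b (lam j) := by
    have h1 : ((2 * ∏ i, (2 * d i).choose (d i) : ℕ) : ℝ) ≤
      ((∏ j, (2 * lam j).choose (lam j) : ℕ) : ℝ) := by exact_mod_cast hcnt
    have hp : ∀ x : ℕ, (0 : ℝ) < (((2 * x).choose x : ℕ) : ℝ) := fun x => by
      exact_mod_cast Nat.centralBinom_pos x
    have h2 := Real.log_le_log (by
      push_cast
      exact mul_pos two_pos (Finset.prod_pos fun i _ => hp (d i))) h1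
    push_cast at h2
    rw [Real.log_mul two_ne_zero (Finset.prod_ne_zero_iff.2 fun i _ => (hp (d i)).ne'),
      Real.log_prod (fun i _ => (hp (d i)).ne'), Real.log_prod (fun j _ => (hp (lam j)).ne')] at h2
    have h3 : b 1 = Real.log 2 := by
      simp only [hb]
      rw [show Nat.centralBinom 1 = 2 by decide]
      norm_num
    rw [h3]
    simp only [hb, Nat.centralBinom]
    linarith
  set c : ℕ → ℝ := fun v => b (v + 2) - 2 * b (v + 1) + b v with hc
  have hcpos : ∀ v, 0 < c v := fun v => cvx_cb v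
  have hsum : ∑ v ∈ Finset.range N, c v * D (v + 1) ≤ 0 := by
    have h1 : ∑ i, b (d i) = (∑ i, (d i : ℝ)) * b 1 +
        ∑ v ∈ Finset.range N, c v * ∑ i, ((d i - (v + 1) : ℕ) : ℝ) := by
      rw [Finset.sum_mul]
      simp only [Finset.mul_sum]
      rw [Finset.sum_comm, ← Finset.sum_add_distrib]
      exact Finset.sum_congr rfl fun i _ => cvx_expand b hb0 N (d i) (hNd i)
    have h2 : ∑ j, b (lam j) = (∑ j, (lam j : ℝ)) * b 1 +
        ∑ v ∈ Finset.range N, c v * ∑ j, ((lam j - (v + 1) : ℕ) : ℝ) := by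
      rw [Finset.sum_mul]
      simp only [Finset.mul_sum]
      rw [Finset.sum_comm, ← Finset.sum_add_distrib]
      exact Finset.sum_congr rfl fun j _ => cvx_expand b hb0 N (lam j) (hNl j)
    have h3 : ∑ v ∈ Finset.range N, c v * D (v + 1) =
        ∑ v ∈ Finset.range N, c v * ∑ i, ((d i - (v + 1) : ℕ) : ℝ) -
          ∑ v ∈ Finset.range N, c v * ∑ j, ((lam j - (v + 1) : ℕ) : ℝ) := by
      rw [← Finset.sum_sub_distrib]
      refine Finset.sum_congr rfl fun v _ => ?_
      simp only [hD]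
      rw [show 1 - (v + 1) = 0 by omega, Nat.cast_zero]
      ring
    have h4 : (∑ j, (lam j : ℝ)) = 1 + ∑ i, (d i : ℝ) := by
      have h5 : ((∑ j, lam j : ℕ) : ℝ) = ((1 + ∑ i, d i : ℕ) : ℝ) := by rw [hs]
      push_cast at h5
      exact h5
    rw [h1, h2, h4] at hlog
    rw [h3]
    linarith
  have hDz : ∀ v, v < N → D (v + 1) = 0 := by
    intro v hv
    have h1 : ∀ u ∈ Finset.range N, 0 ≤ c u * D (u + 1) := fun u _ =>
      mul_nonneg (hcpos u).le (hDpos u)
    have h2 : ∑ u ∈ Finset.range N, c u * D (u + 1) = 0 := le_antisymm hsum (Finset.sum_nonneg h1)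
    have h3 := (Finset.sum_eq_zero_iff_of_nonneg h1).1 h2 v (Finset.mem_range.2 hv)
    exact (mul_eq_zero.1 h3).resolve_left (hcpos v).ne'
  have hDall : ∀ v, D v = 0 := by
    intro v
    cases v with
    | zero => exact hD0
    | succ v =>
      by_cases hv : v < N
      · exact hDz v hv
      · simp only [hD]
        rw [Finset.sum_eq_zero fun i _ => by
            rw [show d i - (v + 1) = 0 by have := hNd i; omega, Nat.cast_zero],
          Finset.sum_eq_zero fun j _ => by
            rw [show lam j - (v + 1) = 0 by have := hNl j; omega, Nat.cast_zero],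
          show 1 - (v + 1) = 0 by omega]
        simp
  obtain ⟨u, rfl⟩ : ∃ u, w = u + 1 := ⟨w - 1, by omega⟩
  have hcard : ∀ {α : Type} [Fintype α] (f : α → ℕ),
      (Nat.card {x // f x = u + 1} : ℝ) = ∑ x, if f x = u + 1 then (1 : ℝ) else 0 := by
    intro α _ f
    rw [Nat.card_eq_fintype_card, Fintype.card_subtype, Finset.card_filter]
    push_cast
    rfl
  have h1 : (Nat.card {j // lam j = u + 1} : ℝ) =
      (Nat.card {i // d i = u + 1} : ℝ) + if (1 : ℕ) = u + 1 then 1 else 0 := by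
    rw [hcard lam, hcard d]
    simp only [cvx_ind, Finset.sum_add_distrib, Finset.sum_sub_distrib, ← Finset.mul_sum]
    have e0 := hDall u
    have e1 := hDall (u + 1)
    have e2 := hDall (u + 2)
    simp only [hD] at e0 e1 e2
    linarith
  have h2 : ((Nat.card {j // lam j = u + 1} : ℕ) : ℝ) =
      ((Nat.card {i // d i = u + 1} + if u + 1 = 1 then 1 else 0 : ℕ) : ℝ) := by
    rw [h1]
    push_cast
    congr 1
  exact_mod_cast h2

end T1
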