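import Pool.Agent.Lib.MP_23b606_ag.T1.Defs

/-! C/Fil: the filtration of `k[x][X]` by powers of the ideal `(X, x)`. -/

set_option autoImplicit false

open Polynomial

namespace T1

/-- The ideal `(x)` of `k[x]`. -/
noncomputable def mm (k : Type) [Field k] (σ : Type) : Ideal (MvPolynomial σ k) :=
  Ideal.span (Set.range (MvPolynomial.X : σ → MvPolynomial σ k))

/-- The ideal `(X, x)` of `k[x][X]`. -/
noncomputable def nI (k : Type) [Field k] (σ : Type) : Ideal (MvPolynomial σ k)[X] :=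
  Ideal.span {X} ⊔ (mm k σ).map C

variable {k : Type} [Field k] {σ : Type}

theorem fil_prod {R : Type*} [CommRing R] (I : Ideal R) {α : Type*} (s : Finset α) (a : α → ℕ)
    (p q : α → R) (hp : ∀ i ∈ s, p i ∈ I ^ a i) (hq : ∀ i ∈ s, q i ∈ I ^ a i)
    (hpq : ∀ i ∈ s, p i - q i ∈ I ^ (a i + 1)) :
    ∏ i ∈ s, p i ∈ I ^ (∑ i ∈ s, a i) ∧
    ∏ i ∈ s, p i - ∏ i ∈ s, q i ∈ I ^ (∑ i ∈ s, a i + 1) := by
  classical
  induction s using Finset.induction_on with
  | empty =>
    simp only [Finset.prod_empty, Finset.sum_empty, pow_zero, sub_self]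
    exact ⟨by rw [Ideal.one_eq_top]; exact Submodule.mem_top, Ideal.zero_mem _⟩
  | insert i s hi ih =>
    obtain ⟨h1, h2⟩ := ih (fun j hj => hp j (Finset.mem_insert_of_mem hj))
      (fun j hj => hq j (Finset.mem_insert_of_mem hj))
      (fun j hj => hpq j (Finset.mem_insert_of_mem hj))
    have hi' := Finset.mem_insert_self i s
    rw [Finset.prod_insert hi, Finset.prod_insert hi, Finset.sum_insert hi]
    constructor
    · rw [pow_add]
      exact Ideal.mul_mem_mul (hp i hi') h1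
    · have e : p i * ∏ j ∈ s, p j - q i * ∏ j ∈ s, q j =
          (p i - q i) * ∏ j ∈ s, p j + q i * (∏ j ∈ s, p j - ∏ j ∈ s, q j) := by ring
      rw [e]
      refine Ideal.add_mem _ ?_ ?_
      · rw [add_right_comm, pow_add]
        exact Ideal.mul_mem_mul (hpq i hi') h1
      · rw [add_assoc, pow_add]
        exact Ideal.mul_mem_mul (hq i hi') h2

theorem fil_pow_sub {R : Type*} [CommRing R] (I : Ideal R) {a : ℕ} {p q : R} (hp : p ∈ I ^ a)
    (hq : q ∈ I ^ a) (hpq : p - q ∈ I ^ (a + 1)) (m : ℕ) :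
    p ^ m ∈ I ^ (m * a) ∧ p ^ m - q ^ m ∈ I ^ (m * a + 1) := by
  have h := fil_prod I (Finset.range m) (fun _ => a) (fun _ => p) (fun _ => q)
    (fun _ _ => hp) (fun _ _ => hq) (fun _ _ => hpq)
  rwa [Finset.prod_const, Finset.prod_const, Finset.sum_const, Finset.card_range, smul_eq_mul] at h

theorem fil_pow_le' {R : Type*} [CommRing R] (I : Ideal R) (G : ℕ → Ideal R) (h0 : G 0 = ⊤)
    (h1 : ∀ D, I * G D ≤ G (D + 1)) (D : ℕ) : I ^ D ≤ G D := by
  induction D with
  | zero =>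
    rw [h0]
    exact le_top
  | succ D ih =>
    rw [pow_succ']
    exact (Ideal.mul_mono_right ih).trans (h1 D)

theorem fil_aeval {R : Type*} [CommRing R] [Algebra k R] (I : Ideal R) {J : Type} (lam : J → ℕ)
    (F : MvPolynomial J k) (d : ℕ) (hF : F.IsWeightedHomogeneous lam d) (P Q : J → R)
    (hP : ∀ j, P j ∈ I ^ lam j) (hQ : ∀ j, Q j ∈ I ^ lam j)
    (hPQ : ∀ j, P j - Q j ∈ I ^ (lam j + 1)) :
    MvPolynomial.aeval P F - MvPolynomial.aeval Q F ∈ I ^ (d + 1) := by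
  rw [MvPolynomial.aeval_def, MvPolynomial.aeval_def, MvPolynomial.eval₂_eq,
    MvPolynomial.eval₂_eq, ← Finset.sum_sub_distrib]
  refine Ideal.sum_mem _ fun m hm => ?_
  rw [← mul_sub]
  refine Ideal.mul_mem_left _ _ ?_
  have hw : ∑ j ∈ m.support, m j * lam j = d := by
    have h1 := hF (MvPolynomial.mem_support_iff.1 hm)
    rw [Finsupp.weight_apply] at h1
    exact h1
  have h2 := fil_prod I m.support (fun j => m j * lam j) (fun j => P j ^ m j)
    (fun j => Q j ^ m j) (fun j _ => (fil_pow_sub I (hP j) (hQ j) (hPQ j) (m j)).1)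
    (fun j _ => by
      have h3 := fil_pow_sub I (hQ j) (hQ j) (by rw [sub_self]; exact Ideal.zero_mem _) (m j)
      exact h3.1)
    (fun j _ => (fil_pow_sub I (hP j) (hQ j) (hPQ j) (m j)).2)
  rw [hw] at h2
  exact h2.2

/-- The polynomials with coefficients in the powers of `(x)`. -/
noncomputable def filG (k : Type) [Field k] (σ : Type) (D : ℕ) : Ideal (MvPolynomial σ k)[X] where
  carrier := {p | ∀ c, p.coeff c ∈ mm k σ ^ (D - c)}
  zero_mem' c := by
    rw [coeff_zero]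
    exact Ideal.zero_mem _
  add_mem' hp hq c := by
    rw [coeff_add]
    exact Ideal.add_mem _ (hp c) (hq c)
  smul_mem' r p hp c := by
    rw [smul_eq_mul, coeff_mul]
    refine Ideal.sum_mem _ fun x hx => Ideal.mul_mem_left _ _ ?_
    refine Ideal.pow_le_pow_right ?_ (hp x.2)
    have := Finset.HasAntidiagonal.mem_antidiagonal.1 hx
    omega

theorem fil_mem {D : ℕ} {p : (MvPolynomial σ k)[X]} :
    p ∈ filG k σ D ↔ ∀ c, p.coeff c ∈ mm k σ ^ (D - c) := Iff.rfl

theorem fil_mul_le (D : ℕ) : nI k σ * filG k σ D ≤ filG k σ (D + 1) := by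
  rw [nI, Ideal.sup_mul, sup_le_iff]
  constructor
  · rw [Ideal.span_singleton_mul_le_iff]
    intro q hq c
    cases c with
    | zero =>
      rw [coeff_X_mul_zero]
      exact Ideal.zero_mem _
    | succ c =>
      rw [coeff_X_mul, Nat.add_sub_add_right]
      exact hq c
  · rw [Ideal.mul_le]
    intro r hr s hs c
    rw [coeff_mul]
    refine Ideal.sum_mem _ fun x hx => ?_
    have h1 : r.coeff x.1 * s.coeff x.2 ∈ mm k σ ^ (D - x.2 + 1) := by
      rw [pow_succ']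
      exact Ideal.mul_mem_mul (Ideal.mem_map_C_iff.1 hr x.1) (hs x.2)
    refine Ideal.pow_le_pow_right ?_ h1
    have := Finset.HasAntidiagonal.mem_antidiagonal.1 hx
    omega

theorem fil_pow_le (D : ℕ) : nI k σ ^ D ≤ filG k σ D := by
  refine fil_pow_le' (nI k σ) (filG k σ) ?_ fil_mul_le D
  rw [Ideal.eq_top_iff_one, fil_mem]
  intro c
  rw [Nat.zero_sub, pow_zero, Ideal.one_eq_top]
  exact Submodule.mem_top

theorem coeff_mem_of_mem_pow {D : ℕ} {p : (MvPolynomial σ k)[X]} (hp : p ∈ nI k σ ^ D) (c : ℕ)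
    (hc : c ≤ D) : p.coeff c ∈ mm k σ ^ (D - c) := by
  have _ := hc
  exact fil_pow_le D hp c

theorem lin_mem (s : σ) : (X - C (MvPolynomial.X s) : (MvPolynomial σ k)[X]) ∈ nI k σ :=
  Ideal.sub_mem _ (Ideal.mem_sup_left (Ideal.mem_span_singleton_self X))
    (Ideal.mem_sup_right (Ideal.mem_map_of_mem C (Ideal.subset_span ⟨s, rfl⟩)))

/-- Products of factors which are congruent modulo the next power of the ideal. -/
theorem prod_sub_mem {α : Type} (s : Finset α) (a : α → ℕ) (p q : α → (MvPolynomial σ k)[X])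
    (hp : ∀ i ∈ s, p i ∈ nI k σ ^ a i) (hq : ∀ i ∈ s, q i ∈ nI k σ ^ a i)
    (hpq : ∀ i ∈ s, p i - q i ∈ nI k σ ^ (a i + 1)) :
    ∏ i ∈ s, p i ∈ nI k σ ^ (∑ i ∈ s, a i) ∧
    ∏ i ∈ s, p i - ∏ i ∈ s, q i ∈ nI k σ ^ (∑ i ∈ s, a i + 1) := by
  exact fil_prod (nI k σ) s a p q hp hq hpq

theorem aeval_sub_mem {J : Type} (lam : J → ℕ) (F : MvPolynomial J k) (d : ℕ)
    (hF : F.IsWeightedHomogeneous lam d) (P Q : J → (MvPolynomial σ k)[X])
    (hP : ∀ j, P j ∈ nI k σ ^ lam j) (hQ : ∀ j, Q j ∈ nI k σ ^ lam j)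
    (hPQ : ∀ j, P j - Q j ∈ nI k σ ^ (lam j + 1)) :
    MvPolynomial.aeval P F - MvPolynomial.aeval Q F ∈ nI k σ ^ (d + 1) := by
  exact fil_aeval (nI k σ) lam F d hF P Q hP hQ hPQ

end T1
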