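import Pool.Agent.Lib.MP_23b606_ag.T1.C.Sys
import Pool.Agent.Lib.MP_23b606_ag.T1.C.Hom
import Pool.Agent.Lib.MP_23b606_ag.T1.Z.Bez

/-! C/Glob: the global dimension. -/

set_option autoImplicit false

open Polynomial

namespace T1

variable {k : Type} [Field k] [IsAlgClosed k] [CharZero k] {J ι : Type} [Fintype J] [Fintype ι]

theorem WSys.glob_HomD_Pg {k : Type} [Field k] {J ι : Type} (S : WSys k J ι) (j : J) :
    HomD (2 * S.lam j) (S.Pg j) := by
  have h := HomD.prod_lin (k := k) (σ := S.Var) (Finset.univ : Finset (Fin (2 * S.lam j)))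
    fun a => ⟨j, a⟩
  rwa [Finset.card_univ, Fintype.card_fin] at h

theorem WSys.G_isHomogeneous (S : WSys k J ι) (j0 : J) (i : S.GI) :
    (S.G j0 i).IsHomogeneous (S.gd i) := by
  rcases i with ⟨i, c⟩ | l
  · have h := HomD.aeval (σ := S.Var) S.lam (S.F i) (S.d i) (S.hom i) 2 S.Pg S.glob_HomD_Pg
    exact (h c).1 c.2.le
  · change (∑ a : Fin (2 * S.lam j0), (MvPolynomial.X ⟨j0, a⟩ : MvPolynomial S.Var k) ^ _)
      |>.IsHomogeneous _
    refine MvPolynomial.IsHomogeneous.sum _ _ _ fun a _ => ?_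
    have h := (MvPolynomial.isHomogeneous_X k (⟨j0, a⟩ : S.Var)).pow ((l : ℕ) + 1)
    rwa [one_mul] at h

/-- The polynomials with the roots `x`. -/
theorem WSys.glob_sol {k : Type} [Field k] {J ι : Type} (S : WSys k J ι) (j0 : J)
    (x : S.Var → k) (hx : ∀ i, MvPolynomial.eval x (S.G j0 i) = 0) :
    S.Sol 2 fun j => ∏ a : Fin (2 * S.lam j), (X - C (x ⟨j, a⟩)) := by
  obtain ⟨P, hP⟩ : ∃ P : J → k[X], P = fun j => ∏ a : Fin (2 * S.lam j), (X - C (x ⟨j, a⟩)) :=
    ⟨_, rfl⟩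
  have hm : ∀ j, (P j).Monic := fun j => by
    rw [hP]
    exact monic_prod_of_monic _ _ fun a _ => monic_X_sub_C _
  have hd : ∀ j, (P j).natDegree = 2 * S.lam j := fun j => by
    rw [hP]
    change (∏ a : Fin (2 * S.lam j), (X - C (x ⟨j, a⟩))).natDegree = _
    rw [natDegree_prod_of_monic _ _ fun a _ => monic_X_sub_C _]
    simp
  rw [← hP]
  refine ⟨hm, hd, fun i => ?_⟩
  have hmap : ∀ j, mapAlgHom (MvPolynomial.aeval x) (S.Pg j) = P j := by
    intro j
    rw [hP, WSys.Pg, map_prod]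
    refine Finset.prod_congr rfl fun a _ => ?_
    rw [coe_mapAlgHom, Polynomial.map_sub, Polynomial.map_X, Polynomial.map_C]
    change X - C (MvPolynomial.aeval x (MvPolynomial.X ⟨j, a⟩)) = _
    rw [MvPolynomial.aeval_X]
  have hF : mapAlgHom (MvPolynomial.aeval x) (S.Fg i) = MvPolynomial.aeval P (S.F i) := by
    rw [WSys.Fg, MvPolynomial.comp_aeval_apply]
    congr 2
    funext j
    exact hmap j
  obtain ⟨h1, h2⟩ := coeff_aeval_top (R := k) S.lam (S.F i) (S.d i) (S.hom i) 2 P hm hd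
  rw [S.one i, map_zero] at h1
  ext c
  rw [coeff_zero]
  rcases lt_trichotomy c (2 * S.d i) with hc | hc | hc
  · have h3 : MvPolynomial.eval x ((S.Fg i).coeff c) = 0 := hx (Sum.inl ⟨i, c, hc⟩)
    rw [← hF, coe_mapAlgHom, coeff_map]
    exact h3
  · rw [hc]
    exact h1
  · exact coeff_eq_zero_of_natDegree_lt (lt_of_le_of_lt h2 hc)

theorem WSys.G_zero (S : WSys k J ι) (j0 : J) (h2 : S.OnlyTriv 2) (x : S.Var → k)
    (hx : ∀ i, MvPolynomial.eval x (S.G j0 i) = 0) : x = 0 := by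
  obtain ⟨q, hq, hPq⟩ := h2 _ (S.glob_sol j0 x hx)
  have hl := S.lam_pos j0
  have hl0 : (S.lam j0 : k) ≠ 0 := by
    rw [Ne, Nat.cast_eq_zero]
    omega
  -- the roots
  have hroots : ∀ j, (Finset.univ.val.map fun a : Fin (2 * S.lam j) => x ⟨j, a⟩) =
      S.lam j • q.roots := by
    intro j
    rw [← roots_pow, ← hPq j, ← roots_multiset_prod_X_sub_C
      (Finset.univ.val.map fun a : Fin (2 * S.lam j) => x ⟨j, a⟩), Multiset.map_map]
    rfl
  have hps : ∀ l : Fin 2, S.lam j0 • (q.roots.map fun r => r ^ ((l : ℕ) + 1)).sum = 0 := by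
    intro l
    have h3 : MvPolynomial.eval x (S.ps j0 ((l : ℕ) + 1)) = 0 := hx (Sum.inr l)
    rw [WSys.ps, map_sum] at h3
    rw [← Multiset.sum_nsmul, ← Multiset.map_nsmul, ← hroots j0, Multiset.map_map, ← h3]
    refine Finset.sum_congr rfl fun a _ => ?_
    rw [map_pow, MvPolynomial.eval_X]
    rfl
  have hps' : ∀ l : Fin 2, (q.roots.map fun r => r ^ ((l : ℕ) + 1)).sum = 0 := by
    intro l
    have h3 := hps l
    rw [nsmul_eq_mul] at h3
    exact (mul_eq_zero.1 h3).resolve_left hl0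
  have hcard : Multiset.card q.roots = 2 := by
    have h3 := congrArg Multiset.card (hroots j0)
    rw [Multiset.card_map, Finset.card_val, Finset.card_univ, Fintype.card_fin,
      Multiset.card_nsmul, mul_comm] at h3
    exact (Nat.eq_of_mul_eq_mul_left (by omega) h3).symm
  obtain ⟨r₁, r₂, hr⟩ := Multiset.card_eq_two.1 hcard
  have e1 : r₁ + r₂ = 0 := by
    have h3 := hps' 0
    rw [hr] at h3
    simpa using h3
  have e2 : r₁ ^ 2 + r₂ ^ 2 = 0 := by
    have h3 := hps' 1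
    rw [hr] at h3
    simpa using h3
  have e3 : r₂ = -r₁ := by linear_combination e1
  have e4 : r₁ = 0 := by
    rw [e3] at e2
    have h3 : (2 : k) * r₁ ^ 2 = 0 := by linear_combination e2
    have h4 : r₁ ^ 2 = 0 := (mul_eq_zero.1 h3).resolve_left two_ne_zero
    exact pow_eq_zero_iff (two_ne_zero) |>.1 h4
  funext s
  obtain ⟨j, a⟩ := s
  have h3 : x ⟨j, a⟩ ∈ Finset.univ.val.map fun a : Fin (2 * S.lam j) => x ⟨j, a⟩ :=
    Multiset.mem_map.2 ⟨a, Finset.mem_univ a, rfl⟩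
  rw [hroots j] at h3
  have h4 := Multiset.mem_of_mem_nsmul h3
  rw [hr, e3, e4, neg_zero] at h4
  simpa using h4

theorem WSys.glob_gd_pos {k : Type} [Field k] {J ι : Type} (S : WSys k J ι) (i : S.GI) :
    1 ≤ S.gd i := by
  rcases i with ⟨i, c⟩ | l
  · have := c.2
    change 1 ≤ 2 * S.d i - (c : ℕ)
    omega
  · change 1 ≤ (l : ℕ) + 1
    omega

theorem WSys.finite_II (S : WSys k J ι) (j0 : J) (h2 : S.OnlyTriv 2) :
    Module.Finite k (MvPolynomial S.Var k ⧸ S.II j0) :=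
  quot_finite (S.G j0) S.gd S.glob_gd_pos (S.G_isHomogeneous j0) (S.G_zero j0 h2) (S.tg j0)

theorem WSys.finrank_II (S : WSys k J ι) (j0 : J) (h2 : S.OnlyTriv 2)
    (hs : ∑ j, S.lam j = 1 + ∑ i, S.d i) :
    Module.finrank k (MvPolynomial S.Var k ⧸ S.II j0) = 2 * ∏ i, (2 * S.d i).factorial := by
  have hc : Fintype.card S.Var = Fintype.card S.GI := by
    rw [Fintype.card_sigma, Fintype.card_sum, Fintype.card_sigma]
    simp only [Fintype.card_fin]
    rw [← Finset.mul_sum, ← Finset.mul_sum, hs]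
    ring
  have h := bezout hc (S.G j0) S.gd S.glob_gd_pos (S.G_isHomogeneous j0) (S.G_zero j0 h2) (S.tg j0)
  rw [WSys.II, h, Fintype.prod_sum_type, Fintype.prod_sigma, mul_comm]
  have h3 : ∏ l : Fin 2, S.gd (Sum.inr l) = 2 := rfl
  rw [h3]
  congr 1
  refine Finset.prod_congr rfl fun i _ => ?_
  change ∏ c : Fin (2 * S.d i), (2 * S.d i - (c : ℕ)) = _
  rw [Fin.prod_univ_eq_prod_range (fun c => 2 * S.d i - c) (2 * S.d i),
    ← Nat.descFactorial_eq_prod_range, Nat.descFactorial_self]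

end T1
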