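import Pool.Agent.Lib.MP_23b606_ag.T1.C.Sys
import Pool.Agent.Lib.MP_23b606_ag.T1.C.Hom
import Pool.Agent.Lib.MP_23b606_ag.T1.C.Fil
import Pool.Agent.Lib.MP_23b606_ag.T1.Z.Loc

/-! C/LocI: the initial forms at a point. -/

set_option autoImplicit false

open Polynomial

namespace T1

namespace WSys

variable {k : Type} [Field k] {J ι : Type} (S : WSys k J ι)

/-- The signs `1`, `-1`. -/
def sg (l : Fin 2) : k := if l = 0 then 1 else -1

open Classical in
/-- The local polynomials `∏ (X - x_{j,a})` over the `a` with `x0_{j,a} = sg l`. -/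
noncomputable def Ql (x0 : S.Var → k) (l : Fin 2) (j : J) : (MvPolynomial S.Var k)[X] :=
  ∏ a ∈ Finset.univ.filter (fun a : Fin (2 * S.lam j) => x0 ⟨j, a⟩ = sg l),
    (X - C (MvPolynomial.X ⟨j, a⟩))

/-- Indices of the local forms. -/
abbrev LI : Type := (Σ i : ι, Fin (S.d i) × Fin 2) ⊕ Fin 2

/-- The local forms. -/
noncomputable def hL (j0 : J) (x0 : S.Var → k) : S.LI → MvPolynomial S.Var k :=
  Sum.elim
    (fun x => MvPolynomial.C ((2 * sg x.2.2) ^ S.d x.1)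
      * (MvPolynomial.aeval (S.Ql x0 x.2.2) (S.F x.1) : (MvPolynomial S.Var k)[X]).coeff x.2.1)
    fun l => if l = 0 then ∑ a : Fin (2 * S.lam j0), MvPolynomial.X ⟨j0, a⟩
      else ∑ a : Fin (2 * S.lam j0), MvPolynomial.C (2 * x0 ⟨j0, a⟩) * MvPolynomial.X ⟨j0, a⟩

/-- Their degrees. -/
def ld : S.LI → ℕ := Sum.elim (fun x => S.d x.1 - x.2.1) fun _ => 1

theorem mem_pow_one {R : Type*} [CommRing R] (I : Ideal R) (n : ℕ) (h : n = 1) (x : R)
    (hx : x ∈ I) : x ∈ I ^ n := by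
  rw [h, pow_one]
  exact hx

theorem mem_pow_zero {R : Type*} [CommRing R] (I : Ideal R) (n : ℕ) (h : n = 0) (x : R) :
    x ∈ I ^ n := by
  rw [h, pow_zero, Ideal.one_eq_top]
  exact Submodule.mem_top

theorem mem_pow_of_sub {R : Type*} [CommRing R] (I : Ideal R) (n : ℕ) {x y : R} (hx : x ∈ I ^ n)
    (hxy : x - y ∈ I ^ (n + 1)) : y ∈ I ^ n := by
  have h4 := Ideal.sub_mem _ hx (Ideal.pow_le_pow_right (Nat.le_succ _) hxy)
  rwa [sub_sub_cancel] at h4

theorem mem_pow_add {R : Type*} [CommRing R] (I : Ideal R) (n : ℕ) (h : n = 2) (x : R)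
    (hx : x ∈ I) : x ^ 2 ∈ I ^ n := by
  rw [h]
  exact Ideal.pow_mem_pow hx 2

theorem Pg_monic (j : J) : (S.Pg j).Monic := monic_prod_of_monic _ _ fun _ _ => monic_X_sub_C _

theorem Pg_natDegree (j : J) : (S.Pg j).natDegree = 2 * S.lam j := by
  rw [Pg, natDegree_prod_of_monic _ _ fun _ _ => monic_X_sub_C _]
  simp

/-- all coefficients of `F_i(P)` are in the ideal of the count -/
theorem Fg_coeff_mem (j0 : J) (i : ι) (c : ℕ) : (S.Fg i).coeff c ∈ S.II j0 := by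
  have h1 := coeff_aeval_top S.lam (S.F i) (S.d i) (S.hom i) 2 S.Pg S.Pg_monic S.Pg_natDegree
  rcases lt_trichotomy c (2 * S.d i) with hc | hc | hc
  · refine Ideal.subset_span ⟨Sum.inl ⟨i, ⟨c, hc⟩⟩, ?_⟩
    simp [G, tg]
  · rw [hc, Fg, h1.1, S.one i, map_zero]
    exact Ideal.zero_mem _
  · rw [Fg, coeff_eq_zero_of_natDegree_lt (lt_of_le_of_lt h1.2 hc)]
    exact Ideal.zero_mem _

theorem comp_coeff_mem {R : Type} [CommRing R] (I : Ideal R) (p q : R[X])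
    (hp : ∀ c, p.coeff c ∈ I) (c : ℕ) : (p.comp q).coeff c ∈ I := by
  have h1 : p.comp q ∈ I.map C := by
    rw [comp_eq_sum_left, Polynomial.sum_def]
    exact Ideal.sum_mem _ fun n _ => Ideal.mul_mem_right _ _ (Ideal.mem_map_of_mem C (hp n))
  exact Ideal.mem_map_C_iff.1 h1 c

/-- The substitution `X ↦ X + s`, `x ↦ x + x0`. -/
noncomputable def Phi (x0 : S.Var → k) (s : k) :
    (MvPolynomial S.Var k)[X] →ₐ[k] (MvPolynomial S.Var k)[X] :=
  (mapAlgHom (shf x0)).comp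
    ((aeval (X + C (MvPolynomial.C s)) :
      (MvPolynomial S.Var k)[X] →ₐ[MvPolynomial S.Var k] (MvPolynomial S.Var k)[X]).restrictScalars k)

theorem Phi_eq (x0 : S.Var → k) (s : k) (p : (MvPolynomial S.Var k)[X]) :
    S.Phi x0 s p = (p.comp (X + C (MvPolynomial.C s))).map
      (shf x0 : MvPolynomial S.Var k →+* MvPolynomial S.Var k) := rfl

theorem Phi_coeff (x0 : S.Var → k) (s : k) (p : (MvPolynomial S.Var k)[X]) (c : ℕ) :
    (S.Phi x0 s p).coeff c = shf x0 ((p.comp (X + C (MvPolynomial.C s))).coeff c) := by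
  rw [Phi_eq, coeff_map]
  rfl

theorem Phi_Pg (x0 : S.Var → k) (s : k) (j : J) :
    S.Phi x0 s (S.Pg j) = ∏ a : Fin (2 * S.lam j),
      (X + C (MvPolynomial.C s) - C (MvPolynomial.X ⟨j, a⟩ + MvPolynomial.C (x0 ⟨j, a⟩))) := by
  rw [Phi_eq, Pg, Polynomial.prod_comp, Polynomial.map_prod]
  refine Finset.prod_congr rfl fun a _ => ?_
  have e1 : (shf x0 : MvPolynomial S.Var k →+* MvPolynomial S.Var k) (MvPolynomial.C s) =
    MvPolynomial.C s := (shf x0).commutes s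
  have e2 : (shf x0 : MvPolynomial S.Var k →+* MvPolynomial S.Var k) (MvPolynomial.X ⟨j, a⟩) =
    MvPolynomial.X ⟨j, a⟩ + MvPolynomial.C (x0 ⟨j, a⟩) := shf_X x0 _
  rw [sub_comp, X_comp, C_comp, Polynomial.map_sub, Polynomial.map_add, map_X, map_C, map_C,
    e1, e2]

theorem sg_cases (l : Fin 2) : (sg l : k) = 1 ∨ (sg l : k) = -1 := by
  unfold sg
  split_ifs
  · exact Or.inl rfl
  · exact Or.inr rfl

theorem IsPt_card [CharZero k] {x0 : S.Var → k} (hx0 : S.IsPt x0) (l : Fin 2) (j : J)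
    [DecidablePred fun a : Fin (2 * S.lam j) => x0 ⟨j, a⟩ = sg l] :
    (Finset.univ.filter (fun a : Fin (2 * S.lam j) => x0 ⟨j, a⟩ = sg l)).card = S.lam j ∧
    (Finset.univ.filter (fun a : Fin (2 * S.lam j) => ¬ x0 ⟨j, a⟩ = sg l)).card = S.lam j := by
  have h1 : (Finset.univ.filter (fun a : Fin (2 * S.lam j) => x0 ⟨j, a⟩ = sg l)).card
      = S.lam j := by
    rw [← Fintype.card_subtype, ← Nat.card_eq_fintype_card]
    rcases sg_cases (k := k) l with h | h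
    · simp only [h]
      exact (hx0.2 j).1
    · simp only [h]
      exact (hx0.2 j).2
  refine ⟨h1, ?_⟩
  have h2 := Finset.card_filter_add_card_filter_not (s := Finset.univ)
    (fun a : Fin (2 * S.lam j) => x0 ⟨j, a⟩ = sg l)
  rw [h1, Finset.card_univ, Fintype.card_fin] at h2
  omega

theorem Phi_Pg_mem [CharZero k] {x0 : S.Var → k} (hx0 : S.IsPt x0) (l : Fin 2) (j : J) :
    S.Phi x0 (sg l) (S.Pg j) ∈ nI k S.Var ^ S.lam j ∧
    S.Phi x0 (sg l) (S.Pg j) - (C (MvPolynomial.C (2 * sg l))) ^ S.lam j * S.Ql x0 l j ∈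
      nI k S.Var ^ (S.lam j + 1) := by
  classical
  have key := prod_sub_mem (k := k) (σ := S.Var) (Finset.univ : Finset (Fin (2 * S.lam j)))
    (fun a => if x0 ⟨j, a⟩ = sg l then 1 else 0)
    (fun a => X + C (MvPolynomial.C (sg l)) -
      C (MvPolynomial.X ⟨j, a⟩ + MvPolynomial.C (x0 ⟨j, a⟩)))
    (fun a => if x0 ⟨j, a⟩ = sg l then X - C (MvPolynomial.X ⟨j, a⟩)
      else C (MvPolynomial.C (2 * sg l))) ?_ ?_ ?_
  · have h1 : ∑ a : Fin (2 * S.lam j), (if x0 ⟨j, a⟩ = sg l then 1 else 0) = S.lam j := by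
      rw [← Finset.card_filter]
      exact (S.IsPt_card hx0 l j).1
    have h2 : ∏ a : Fin (2 * S.lam j), (if x0 ⟨j, a⟩ = sg l then X - C (MvPolynomial.X ⟨j, a⟩)
        else C (MvPolynomial.C (2 * sg l)) : (MvPolynomial S.Var k)[X]) =
        (C (MvPolynomial.C (2 * sg l))) ^ S.lam j * S.Ql x0 l j := by
      rw [Finset.prod_ite, Finset.prod_const, (S.IsPt_card hx0 l j).2, mul_comm, Ql]
    rw [h1, h2, ← Phi_Pg] at key
    exact key
  · intro a _
    by_cases h : x0 ⟨j, a⟩ = sg l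
    · refine mem_pow_one _ _ (if_pos h) _ ?_
      rw [h, C_add, show (X + C (MvPolynomial.C (sg l)) - (C (MvPolynomial.X ⟨j, a⟩) +
        C (MvPolynomial.C (sg l))) : (MvPolynomial S.Var k)[X]) =
        X - C (MvPolynomial.X ⟨j, a⟩) by ring]
      exact lin_mem _
    · exact mem_pow_zero _ _ (if_neg h) _
  · intro a _
    by_cases h : x0 ⟨j, a⟩ = sg l
    · refine mem_pow_one _ _ (if_pos h) _ ?_
      rw [if_pos h]
      exact lin_mem _
    · exact mem_pow_zero _ _ (if_neg h) _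
  · intro a _
    by_cases h : x0 ⟨j, a⟩ = sg l
    · rw [if_pos h, if_pos h, h, C_add]
      rw [show (X + C (MvPolynomial.C (sg l)) - (C (MvPolynomial.X ⟨j, a⟩) +
        C (MvPolynomial.C (sg l))) - (X - C (MvPolynomial.X ⟨j, a⟩)) :
          (MvPolynomial S.Var k)[X]) = 0 by ring]
      exact Ideal.zero_mem _
    · refine mem_pow_one _ _ (by rw [if_neg h]) _ ?_
      have h2 : x0 ⟨j, a⟩ = - sg l := by
        rcases hx0.1 ⟨j, a⟩ with h3 | h3 <;> rcases sg_cases (k := k) l with h4 | h4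
        · rw [h3, h4] at h
          exact absurd rfl h
        · rw [h3, h4, neg_neg]
        · rw [h3, h4]
        · rw [h3, h4] at h
          exact absurd rfl h
      rw [if_neg h, h2, C_add]
      rw [show (X + C (MvPolynomial.C (sg l)) - (C (MvPolynomial.X ⟨j, a⟩) +
        C (MvPolynomial.C (- sg l))) - C (MvPolynomial.C (2 * sg l)) :
          (MvPolynomial S.Var k)[X]) = X - C (MvPolynomial.X ⟨j, a⟩) by
        rw [MvPolynomial.C_neg, C_neg, MvPolynomial.C_mul, C_mul,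
          show (C (MvPolynomial.C (2 : k)) : (MvPolynomial S.Var k)[X]) = 2 from by
            rw [map_ofNat, map_ofNat]]
        ring]
      exact lin_mem _

theorem hL_ini_inl [CharZero k] (j0 : J) (x0 : S.Var → k) (hx0 : S.IsPt x0)
    (i : ι) (c : Fin (S.d i)) (l : Fin 2) :
    ∃ g ∈ S.II j0, shf x0 g - S.hL j0 x0 (Sum.inl ⟨i, (c, l)⟩) ∈
      (Ideal.span (Set.range (MvPolynomial.X : S.Var → MvPolynomial S.Var k))) ^
        (S.ld (Sum.inl ⟨i, (c, l)⟩) + 1) := by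
  refine ⟨((S.Fg i).comp (X + C (MvPolynomial.C (sg l)))).coeff c,
    comp_coeff_mem _ _ _ (fun c => S.Fg_coeff_mem j0 i c) c, ?_⟩
  rw [← Phi_coeff]
  have h1 : S.Phi x0 (sg l) (S.Fg i) =
      MvPolynomial.aeval (fun j => S.Phi x0 (sg l) (S.Pg j)) (S.F i) :=
    MvPolynomial.comp_aeval_apply _ _ _
  have h2 := aeval_sub_mem (k := k) (σ := S.Var) S.lam (S.F i) (S.d i) (S.hom i)
    (fun j => S.Phi x0 (sg l) (S.Pg j))
    (fun j => (C (MvPolynomial.C (2 * sg l))) ^ S.lam j * S.Ql x0 l j)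
    (fun j => (S.Phi_Pg_mem hx0 l j).1)
    (fun j => mem_pow_of_sub _ _ (S.Phi_Pg_mem hx0 l j).1 (S.Phi_Pg_mem hx0 l j).2)
    (fun j => (S.Phi_Pg_mem hx0 l j).2)
  have h2' := aeval_scale (R := (MvPolynomial S.Var k)[X]) S.lam (S.F i) (S.d i) (S.hom i)
    (C (MvPolynomial.C (2 * sg l))) (S.Ql x0 l)
  rw [← h1, h2'] at h2
  have h3 := coeff_mem_of_mem_pow h2 c (by have := c.2; omega)
  rw [coeff_sub, ← C_pow, coeff_C_mul] at h3
  have h4 : S.ld (Sum.inl ⟨i, (c, l)⟩) + 1 = S.d i + 1 - c := by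
    have := c.2
    show S.d i - c + 1 = _
    omega
  rw [h4]
  have h5 : S.hL j0 x0 (Sum.inl ⟨i, (c, l)⟩) = (MvPolynomial.C (2 * sg l)) ^ S.d i *
      (MvPolynomial.aeval (S.Ql x0 l) (S.F i) : (MvPolynomial S.Var k)[X]).coeff c := by
    rw [← MvPolynomial.C_pow]
    rfl
  rw [h5]
  exact h3

theorem sum_x0 [CharZero k] (x0 : S.Var → k) (hx0 : S.IsPt x0) (j : J) :
    ∑ a : Fin (2 * S.lam j), x0 ⟨j, a⟩ = 0 := by
  classical
  have h1 : ∀ a : Fin (2 * S.lam j), x0 ⟨j, a⟩ =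
      (if x0 ⟨j, a⟩ = 1 then 1 else 0) - if x0 ⟨j, a⟩ = -1 then 1 else 0 := by
    intro a
    have h2 : (1 : k) ≠ -1 := by
      intro h
      have : (2 : k) = 0 := by linear_combination h
      exact two_ne_zero this
    rcases hx0.1 ⟨j, a⟩ with h | h
    · rw [h, if_pos rfl, if_neg h2, sub_zero]
    · rw [h, if_neg h2.symm, if_pos rfl, zero_sub]
  rw [Finset.sum_congr rfl fun a _ => h1 a, Finset.sum_sub_distrib, ← Finset.natCast_card_filter,
    ← Finset.natCast_card_filter, ← Fintype.card_subtype, ← Fintype.card_subtype,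
    ← Nat.card_eq_fintype_card, ← Nat.card_eq_fintype_card, (hx0.2 j).1, (hx0.2 j).2, sub_self]

theorem G_inr (j0 : J) (l : Fin 2) : S.G j0 (Sum.inr l) =
    ∑ a : Fin (2 * S.lam j0), (MvPolynomial.X ⟨j0, a⟩) ^ ((l : ℕ) + 1) := rfl

theorem shf_G_inr (j0 : J) (x0 : S.Var → k) (l : Fin 2) : shf x0 (S.G j0 (Sum.inr l)) =
    ∑ a : Fin (2 * S.lam j0),
      (MvPolynomial.X ⟨j0, a⟩ + MvPolynomial.C (x0 ⟨j0, a⟩)) ^ ((l : ℕ) + 1) := by
  rw [G_inr, map_sum]
  refine Finset.sum_congr rfl fun a _ => ?_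
  rw [map_pow, shf_X]

theorem hL_ini_inr0 [CharZero k] (j0 : J) (x0 : S.Var → k) (hx0 : S.IsPt x0) :
    shf x0 (S.G j0 (Sum.inr 0)) - MvPolynomial.C (S.tg j0 (Sum.inr 0)) -
      S.hL j0 x0 (Sum.inr 0) = 0 := by
  have h2 : S.tg j0 (Sum.inr 0) = 0 := by rw [tg, Sum.elim_inr, if_pos rfl]
  have h3 : S.hL j0 x0 (Sum.inr 0) = ∑ a : Fin (2 * S.lam j0), MvPolynomial.X ⟨j0, a⟩ := by
    rw [hL, Sum.elim_inr, if_pos rfl]
  rw [shf_G_inr, h2, h3]
  simp only [Fin.val_zero, zero_add, pow_one, MvPolynomial.C_0, sub_zero]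
  rw [Finset.sum_add_distrib, ← map_sum, S.sum_x0 x0 hx0 j0, MvPolynomial.C_0, add_zero, sub_self]

theorem hL_ini_inr1 [CharZero k] (j0 : J) (x0 : S.Var → k) (hx0 : S.IsPt x0) :
    shf x0 (S.G j0 (Sum.inr 1)) - MvPolynomial.C (S.tg j0 (Sum.inr 1)) -
      S.hL j0 x0 (Sum.inr 1) = ∑ a : Fin (2 * S.lam j0), (MvPolynomial.X ⟨j0, a⟩) ^ 2 := by
  have h2 : S.tg j0 (Sum.inr 1) = 2 * (S.lam j0 : k) := by
    rw [tg, Sum.elim_inr, if_neg one_ne_zero]
  have h3 : S.hL j0 x0 (Sum.inr 1) = ∑ a : Fin (2 * S.lam j0),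
      MvPolynomial.C (2 * x0 ⟨j0, a⟩) * MvPolynomial.X ⟨j0, a⟩ := by
    rw [hL, Sum.elim_inr, if_neg one_ne_zero]
  have h4 : ∀ a : Fin (2 * S.lam j0),
      (MvPolynomial.X ⟨j0, a⟩ + MvPolynomial.C (x0 ⟨j0, a⟩) : MvPolynomial S.Var k) ^
        (((1 : Fin 2) : ℕ) + 1) =
      (MvPolynomial.X ⟨j0, a⟩) ^ 2 + MvPolynomial.C (2 * x0 ⟨j0, a⟩) *
        MvPolynomial.X ⟨j0, a⟩ + 1 := by
    intro a
    have h5 : x0 ⟨j0, a⟩ ^ 2 = 1 := by
      rcases hx0.1 ⟨j0, a⟩ with h | h <;> rw [h] <;> ring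
    rw [Fin.val_one, one_add_one_eq_two, add_sq, ← MvPolynomial.C_pow, h5, MvPolynomial.C_1,
      MvPolynomial.C_mul,
      show (MvPolynomial.C (2 : k) : MvPolynomial S.Var k) = 2 from map_ofNat _ _]
    ring
  have h6 : (2 * S.lam j0) • (1 : MvPolynomial S.Var k) =
      MvPolynomial.C (2 * (S.lam j0 : k)) := by
    rw [nsmul_eq_mul, mul_one, MvPolynomial.C_mul, map_ofNat, map_natCast]
    push_cast
    ring
  rw [shf_G_inr, h2, h3, Finset.sum_congr rfl fun a _ => h4 a, Finset.sum_add_distrib,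
    Finset.sum_add_distrib, Finset.sum_const, Finset.card_univ, Fintype.card_fin]
  rw [h6, add_sub_cancel_right, add_sub_cancel_right]

theorem hL_ini [CharZero k] [Fintype J] [Fintype ι] (j0 : J) (x0 : S.Var → k) (hx0 : S.IsPt x0)
    (i : S.LI) :
    ∃ g ∈ S.II j0, shf x0 g - S.hL j0 x0 i ∈
      (Ideal.span (Set.range (MvPolynomial.X : S.Var → MvPolynomial S.Var k))) ^ (S.ld i + 1) := by
  rcases i with ⟨i, c, l⟩ | l
  · exact S.hL_ini_inl j0 x0 hx0 i c l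
  · have hC : ∀ r : k, shf x0 (MvPolynomial.C r) = MvPolynomial.C r := fun r => (shf x0).commutes r
    refine ⟨S.G j0 (Sum.inr l) - MvPolynomial.C (S.tg j0 (Sum.inr l)),
      Ideal.subset_span ⟨Sum.inr l, rfl⟩, ?_⟩
    rw [map_sub, hC]
    rcases (show l = 0 ∨ l = 1 by omega) with hl | hl
    · rw [hl, S.hL_ini_inr0 j0 x0 hx0]
      exact Ideal.zero_mem _
    · rw [hl, S.hL_ini_inr1 j0 x0 hx0]
      refine Ideal.sum_mem _ fun a _ => ?_
      exact mem_pow_add _ _ rfl _ (Ideal.subset_span ⟨_, rfl⟩)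

end WSys

end T1
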