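import Pool.Agent.Lib.MP_23b606_ag.T1.Defs
import Pool.Agent.Lib.MP_f80667_ag.ZC.RkC

/-! C/Maj: the majorisation from the projective dimension theorem (solutions of degree 1). -/

set_option autoImplicit false

open Polynomial

namespace T1

/-- `p` is `X^a` plus terms of degree less than `a - w`. -/
def MjM {R : Type} [CommRing R] (w a : ℕ) (p : R[X]) : Prop :=
  ∀ c, a - w ≤ c → (p - X ^ a).coeff c = 0

theorem MjM.mul {R : Type} [CommRing R] {w a b : ℕ} {p q : R[X]} (hp : MjM w a p)
    (hq : MjM w b q) : MjM w (a + b) (p * q) := by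
  intro c hc
  have h1 : p * q - X ^ (a + b) = (p - X ^ a) * q + X ^ a * (q - X ^ b) := by
    rw [pow_add]
    ring
  rw [h1, coeff_add, coeff_mul, Finset.sum_eq_zero, zero_add, coeff_X_pow_mul']
  · split_ifs with h
    · exact hq _ (by omega)
    · rfl
  · rintro ⟨x, y⟩ hxy
    rw [Finset.HasAntidiagonal.mem_antidiagonal] at hxy
    simp only at hxy ⊢
    by_cases hx : a - w ≤ x
    · rw [hp x hx, zero_mul]
    · have h2 := hq y (by omega)
      rw [coeff_sub, coeff_X_pow, if_neg (by omega), sub_zero] at h2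
      rw [h2, mul_zero]

theorem MjM.one {R : Type} [CommRing R] (w : ℕ) : MjM w 0 (1 : R[X]) := by
  intro c _
  rw [pow_zero, sub_self, coeff_zero]

theorem MjM.pow {R : Type} [CommRing R] {w a : ℕ} {p : R[X]} (hp : MjM w a p) (n : ℕ) :
    MjM w (n * a) (p ^ n) := by
  induction n with
  | zero =>
    rw [zero_mul, pow_zero]
    exact MjM.one w
  | succ n ih =>
    rw [pow_succ, add_mul, one_mul]
    exact ih.mul hp

theorem MjM.prod {R : Type} [CommRing R] {w : ℕ} {J : Type} (s : Finset J) (a : J → ℕ)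
    (p : J → R[X]) (hp : ∀ j, MjM w (a j) (p j)) : MjM w (∑ j ∈ s, a j) (∏ j ∈ s, p j) := by
  classical
  induction s using Finset.induction_on with
  | empty =>
    rw [Finset.sum_empty, Finset.prod_empty]
    exact MjM.one w
  | insert j s hj ih =>
    rw [Finset.sum_insert hj, Finset.prod_insert hj]
    exact (hp j).mul ih

/-- If `P_j = X^{λ_j} + (degree < λ_j - w)` then `F(P) = X^d F(1) + (degree < d - w)`. -/
theorem coeff_aeval_eq {k R : Type} [Field k] [CommRing R] [Algebra k R] {J : Type} [Finite J]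
    (lam : J → ℕ) (F : MvPolynomial J k) (d : ℕ) (hF : F.IsWeightedHomogeneous lam d) (w : ℕ)
    (P : J → R[X]) (hP : ∀ j c, lam j - w ≤ c → (P j - X ^ lam j).coeff c = 0) (c : ℕ)
    (hc : d - w ≤ c) :
    (MvPolynomial.aeval P F
      - C (algebraMap k R (MvPolynomial.eval (fun _ => 1) F)) * X ^ d : R[X]).coeff c = 0 := by
  have h1 : MvPolynomial.aeval P F = ∑ e ∈ F.support, C (algebraMap k R (F.coeff e)) *
      ∏ j ∈ e.support, P j ^ e j := by
    rw [MvPolynomial.aeval_def, MvPolynomial.eval₂_eq]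
    rfl
  have h2 : MvPolynomial.eval (fun _ => 1) F = ∑ e ∈ F.support, F.coeff e := by
    rw [MvPolynomial.eval_eq]
    refine Finset.sum_congr rfl fun e _ => ?_
    simp
  have h3 : MvPolynomial.aeval P F
      - C (algebraMap k R (MvPolynomial.eval (fun _ => 1) F)) * X ^ d =
      ∑ e ∈ F.support, C (algebraMap k R (F.coeff e)) * (∏ j ∈ e.support, P j ^ e j - X ^ d) := by
    rw [h1, h2, map_sum, map_sum, Finset.sum_mul, ← Finset.sum_sub_distrib]
    exact Finset.sum_congr rfl fun e _ => by ring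
  rw [h3, finsetSum_coeff]
  refine Finset.sum_eq_zero fun e he => ?_
  rw [coeff_C_mul]
  have h4 : ∑ j ∈ e.support, e j * lam j = d := by
    have h5 := hF (MvPolynomial.mem_support_iff.1 he)
    rw [← h5, Finsupp.weight_apply, Finsupp.sum]
    rfl
  have h6 : MjM w (∑ j ∈ e.support, e j * lam j) (∏ j ∈ e.support, P j ^ e j) :=
    MjM.prod _ _ _ fun j => MjM.pow (fun c hc => hP j c hc) _
  rw [h4] at h6
  rw [h6 c hc, mul_zero]

section gen

variable {k : Type} [Field k] {J ι : Type}

/-- The generic polynomials with the unknown coefficients in a set `p`. -/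
noncomputable def MjP {R : Type} [CommRing R] (lam : J → ℕ) (p : (Σ j, Fin (lam j)) → Prop)
    [DecidablePred p] (y : {s // p s} → R) (j : J) : R[X] :=
  X ^ lam j + ∑ a : Fin (lam j), C (if h : p ⟨j, a⟩ then y ⟨⟨j, a⟩, h⟩ else 0) * X ^ (a : ℕ)

variable {R : Type} [CommRing R] (lam : J → ℕ) (p : (Σ j, Fin (lam j)) → Prop)
    [DecidablePred p] (y : {s // p s} → R) (j : J)

theorem MjP_ge (c : ℕ) (hc : lam j ≤ c) : (MjP lam p y j - X ^ lam j).coeff c = 0 := by
  rw [MjP, add_sub_cancel_left, finsetSum_coeff]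
  refine Finset.sum_eq_zero fun a _ => ?_
  rw [coeff_C_mul_X_pow, if_neg]
  have := a.2
  omega

theorem MjP_lt (a : Fin (lam j)) : (MjP lam p y j - X ^ lam j).coeff (a : ℕ) =
    if h : p ⟨j, a⟩ then y ⟨⟨j, a⟩, h⟩ else 0 := by
  rw [MjP, add_sub_cancel_left, finsetSum_coeff, Finset.sum_eq_single a]
  · rw [coeff_C_mul_X_pow, if_pos rfl]
  · intro b _ hb
    rw [coeff_C_mul_X_pow, if_neg]
    intro h
    exact hb (Fin.ext h.symm)
  · intro h
    exact absurd (Finset.mem_univ a) h

theorem MjP_map {R' : Type} [CommRing R'] (f : R →+* R') :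
    (MjP lam p y j).map f = MjP lam p (fun s => f (y s)) j := by
  rw [MjP, MjP, Polynomial.map_add, Polynomial.map_pow, map_X, Polynomial.map_sum]
  congr 1
  refine Finset.sum_congr rfl fun a _ => ?_
  rw [Polynomial.map_mul, Polynomial.map_pow, map_X, map_C]
  congr 2
  split_ifs
  · rfl
  · exact map_zero f

theorem MjP_deg : (MjP lam p y j - X ^ lam j).degree < (lam j : WithBot ℕ) := by
  rw [degree_lt_iff_coeff_zero]
  intro c hc
  exact MjP_ge lam p y j c hc

theorem MjP_monic : (MjP lam p y j).Monic := by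
  have h := monic_X_pow_add (MjP_deg lam p y j)
  rwa [add_sub_cancel] at h

theorem MjP_natDegree [Nontrivial R] : (MjP lam p y j).natDegree = lam j := by
  have h1 := MjP_deg lam p y j
  have h2 : (MjP lam p y j).degree = (X ^ lam j : R[X]).degree := by
    have h3 := degree_add_eq_left_of_degree_lt (p := (X ^ lam j : R[X]))
      (q := MjP lam p y j - X ^ lam j) (by rwa [degree_X_pow])
    rwa [add_sub_cancel] at h3
  rw [degree_X_pow] at h2
  exact natDegree_eq_of_degree_eq_some h2

end gen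

variable {k : Type} [Field k] [IsAlgClosed k] [CharZero k] {J ι : Type} [Fintype J] [Fintype ι]

theorem WSys.majKey (S : WSys k J ι) (h1 : S.OnlyTriv 1) (w : ℕ)
    (p : (Σ j, Fin (S.lam j)) → Prop) [DecidablePred p]
    (hp : ∀ s, p s → (s.2 : ℕ) < S.lam s.1 - w) (j0 : J)
    (hj0 : ∀ a : Fin (S.lam j0), p ⟨j0, a⟩ → (a : ℕ) + 1 < S.lam j0) :
    Fintype.card {s // p s} ≤ ∑ i, (S.d i - w) := by
  classical
  by_contra hcon
  push Not at hcon
  have hcard : Fintype.card (Σ i, Fin (S.d i - w)) < Fintype.card {s // p s} := by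
    rw [Fintype.card_sigma]
    simpa using hcon
  have hlow : ∀ (y : {s // p s} → k) (j : J) (c : ℕ), S.lam j - w ≤ c →
      (MjP S.lam p y j - X ^ S.lam j).coeff c = 0 := by
    intro y j c hc
    rcases lt_or_ge c (S.lam j) with h | h
    · have h2 := MjP_lt S.lam p y j ⟨c, h⟩
      rw [dif_neg] at h2
      · exact h2
      · intro h3
        have h4 := hp _ h3
        simp only at h4
        omega
    · exact MjP_ge S.lam p y j c h
  have hev : ∀ (x : {s // p s} → k) (i : ι) (c : ℕ),
      MvPolynomial.eval x ((MvPolynomial.aeval (MjP S.lam p (fun s => (MvPolynomial.X s :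
        MvPolynomial {s // p s} k))) (S.F i)).coeff c) =
        (MvPolynomial.aeval (MjP S.lam p x) (S.F i)).coeff c := by
    intro x i c
    rw [← Polynomial.coeff_map]
    congr 1
    have h2 := MvPolynomial.comp_aeval_apply
      (MjP S.lam p (fun s => (MvPolynomial.X s : MvPolynomial {s // p s} k)))
      (Polynomial.mapAlgHom (MvPolynomial.aeval x)) (S.F i)
    have h3 : ∀ q : (MvPolynomial {s // p s} k)[X],
        Polynomial.mapAlgHom (MvPolynomial.aeval x : MvPolynomial {s // p s} k →ₐ[k] k) q =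
          q.map (MvPolynomial.eval x) := fun q => rfl
    rw [h3] at h2
    rw [h2]
    congr 2
    funext j
    rw [h3, MjP_map]
    congr 1
    funext s
    exact MvPolynomial.eval_X s
  have hdeg : ∀ (x : {s // p s} → k) (i : ι) (c : ℕ), S.d i - w ≤ c →
      (MvPolynomial.aeval (MjP S.lam p x) (S.F i)).coeff c = 0 := by
    intro x i c hc
    have h2 := coeff_aeval_eq S.lam (S.F i) (S.d i) (S.hom i) w (MjP S.lam p x)
      (hlow x) c hc
    rw [S.one, map_zero, map_zero, zero_mul, sub_zero] at h2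
    exact h2
  have hzero : ∀ (i : ι) (c : ℕ),
      (MvPolynomial.aeval (MjP S.lam p (0 : {s // p s} → k)) (S.F i)).coeff c = 0 := by
    intro i c
    have h0 : ∀ j, MjP S.lam p (0 : {s // p s} → k) j = X ^ S.lam j := by
      intro j
      rw [MjP]
      simp
    have h2 := coeff_aeval_eq S.lam (S.F i) (S.d i) (S.hom i) (S.d i)
      (MjP S.lam p (0 : {s // p s} → k))
      (fun j c _ => by rw [h0, sub_self, coeff_zero]) c (by omega)
    rw [S.one, map_zero, map_zero, zero_mul, sub_zero] at h2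
    exact h2
  obtain ⟨x, hx, hxe⟩ := ZC.exists_common_zero hcard
    (fun s : Σ i, Fin (S.d i - w) =>
      (MvPolynomial.aeval (MjP S.lam p (fun s => (MvPolynomial.X s :
        MvPolynomial {s // p s} k))) (S.F s.1)).coeff (s.2 : ℕ))
    (fun s => by rw [hev]; exact hzero _ _)
  refine hx ?_
  have hsol : S.Sol 1 (MjP S.lam p x) := by
    refine ⟨fun j => MjP_monic _ _ _ _, fun j => by rw [MjP_natDegree, one_mul], fun i => ?_⟩
    ext c
    rw [coeff_zero]
    rcases lt_or_ge c (S.d i - w) with h | h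
    · have h2 := hxe ⟨i, ⟨c, h⟩⟩
      rw [hev] at h2
      exact h2
    · exact hdeg x i c h
  obtain ⟨q, hq, hP⟩ := h1 _ hsol
  have hq1 : q.natDegree = 1 := by
    have h2 := MjP_natDegree S.lam p x j0
    rw [hP, hq.natDegree_pow] at h2
    have h3 := S.lam_pos j0
    exact Nat.eq_of_mul_eq_mul_left h3 (by rw [h2, mul_one])
  obtain ⟨b, rfl⟩ : ∃ b, q = X + C b := ⟨q.coeff 0, by
    have h2 := hq.as_sum
    rw [hq1, Finset.sum_range_one, pow_one, pow_zero, mul_one] at h2
    exact h2⟩
  have hb : b = 0 := by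
    have h3 := S.lam_pos j0
    have h2 : (MjP S.lam p x j0 - X ^ S.lam j0).coeff (S.lam j0 - 1) = 0 := by
      have h4 := MjP_lt S.lam p x j0 ⟨S.lam j0 - 1, by omega⟩
      rw [dif_neg] at h4
      · exact h4
      · intro h5
        have h6 := hj0 _ h5
        simp only at h6
        omega
    rw [hP, coeff_sub, coeff_X_add_C_pow, coeff_X_pow, if_neg (by omega), sub_zero] at h2
    have h4 : S.lam j0 - (S.lam j0 - 1) = 1 := by omega
    have h5 : (S.lam j0).choose (S.lam j0 - 1) = S.lam j0 := by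
      rw [← Nat.choose_symm (by omega), h4, Nat.choose_one_right]
    rw [h4, h5, pow_one] at h2
    rcases mul_eq_zero.1 h2 with h | h
    · exact h
    · exact absurd (Nat.cast_eq_zero.1 h) (by omega)
  funext s
  obtain ⟨⟨j, a⟩, hs⟩ := s
  have h2 := MjP_lt S.lam p x j a
  rw [dif_pos hs, hP, hb, map_zero, add_zero, sub_self, coeff_zero] at h2
  exact h2.symm

theorem WSys.maj (S : WSys k J ι) [Nonempty J] (h1 : S.OnlyTriv 1) (w : ℕ) (hw : 1 ≤ w) :
    ∑ j, (S.lam j - w) ≤ ∑ i, (S.d i - w) := by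
  classical
  obtain ⟨j0⟩ := (inferInstance : Nonempty J)
  refine le_trans ?_ (S.majKey h1 w (fun s => (s.2 : ℕ) < S.lam s.1 - w) (fun s hs => hs) j0
    (fun a ha => by
      simp only at ha
      omega))
  have h2 : Fintype.card (Σ j, Fin (S.lam j - w)) = ∑ j, (S.lam j - w) := by
    rw [Fintype.card_sigma]
    simp
  rw [← h2]
  refine Fintype.card_le_of_injective
    (fun s => ⟨⟨s.1, Fin.castLE (Nat.sub_le _ _) s.2⟩, s.2.2⟩) ?_
  rintro ⟨j, a⟩ ⟨j', a'⟩ h
  simp only [Subtype.mk.injEq, Sigma.mk.injEq] at h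
  obtain ⟨rfl, h⟩ := h
  have h3 := congrArg Fin.val (eq_of_heq h)
  simp only [Fin.val_castLE] at h3
  rw [Fin.ext h3]

theorem WSys.sum_le (S : WSys k J ι) [Nonempty J] (h1 : S.OnlyTriv 1) :
    ∑ j, S.lam j ≤ 1 + ∑ i, S.d i := by
  classical
  obtain ⟨j0⟩ := (inferInstance : Nonempty J)
  have h3 := S.lam_pos j0
  set s0 : Σ j, Fin (S.lam j) := ⟨j0, ⟨S.lam j0 - 1, by omega⟩⟩ with hs0
  have h2 := S.majKey h1 0 (fun s => s ≠ s0) (fun s _ => by
    rw [Nat.sub_zero]
    exact s.2.2) j0 (fun a ha => by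
      by_contra hcon
      refine ha ?_
      rw [hs0]
      congr 1
      have := a.2
      exact Fin.ext (by simp only; omega))
  have h4 : Fintype.card {s // s ≠ s0} = (∑ j, S.lam j) - 1 := by
    rw [Fintype.card_subtype_compl, Fintype.card_subtype_eq, Fintype.card_sigma]
    simp
  rw [h4] at h2
  simp only [Nat.sub_zero] at h2
  omega

end T1
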