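import Pool.Agent.Lib.MP_23b606_ag.T1.Defs

/-! C/Sys: the system of the count (conics). -/

set_option autoImplicit false

open Polynomial

namespace T1

namespace WSys

variable {k : Type} [Field k] {J ι : Type} (S : WSys k J ι)

/-- The variables: the roots `x_{j,a}`, `a < 2 λ_j`. -/
abbrev Var : Type := Σ j : J, Fin (2 * S.lam j)

/-- The generic polynomials `∏_a (X - x_{j,a})`. -/
noncomputable def Pg (j : J) : (MvPolynomial S.Var k)[X] :=
  ∏ a : Fin (2 * S.lam j), (X - C (MvPolynomial.X ⟨j, a⟩))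

/-- `F_i` at the generic polynomials. -/
noncomputable def Fg (i : ι) : (MvPolynomial S.Var k)[X] := MvPolynomial.aeval S.Pg (S.F i)

/-- The power sums of the roots of the polynomial with index `j0`. -/
noncomputable def ps (j0 : J) (l : ℕ) : MvPolynomial S.Var k :=
  ∑ a : Fin (2 * S.lam j0), (MvPolynomial.X ⟨j0, a⟩) ^ l

/-- Indices of the forms. -/
abbrev GI : Type := (Σ i : ι, Fin (2 * S.d i)) ⊕ Fin 2

/-- The forms: the coefficients of `F_i(P)` below the top one, and two power sums. -/
noncomputable def G (j0 : J) : S.GI → MvPolynomial S.Var k :=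
  Sum.elim (fun x => (S.Fg x.1).coeff x.2) fun l => S.ps j0 (l + 1)

/-- Their degrees. -/
def gd : S.GI → ℕ := Sum.elim (fun x => 2 * S.d x.1 - x.2) fun l => (l : ℕ) + 1

/-- The target of the count: `P = (X² - 1)^{λ}`. -/
noncomputable def tg (j0 : J) : S.GI → k :=
  Sum.elim (fun _ => 0) fun l => if l = 0 then 0 else 2 * (S.lam j0 : k)

/-- The points: assignments of `1`, `-1` to the roots, `λ_j` times each. -/
def IsPt (x : S.Var → k) : Prop :=
  (∀ s, x s = 1 ∨ x s = -1) ∧
    ∀ j, Nat.card {a : Fin (2 * S.lam j) // x ⟨j, a⟩ = 1} = S.lam j ∧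
      Nat.card {a : Fin (2 * S.lam j) // x ⟨j, a⟩ = -1} = S.lam j

/-- The ideal of the count. -/
noncomputable def II (j0 : J) : Ideal (MvPolynomial S.Var k) :=
  Ideal.span (Set.range fun i => S.G j0 i - MvPolynomial.C (S.tg j0 i))

end WSys

end T1
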