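import Pool.Agent.Lib.MP_23b606_ag.T1.C.Bad
import Pool.Agent.Lib.MP_23b606_ag.T1.C.Hom

/-! C/Uni: uniqueness of the zeros of the system. -/

set_option autoImplicit false

open Polynomial

namespace T1

variable {k : Type} [Field k] [CharZero k] {J ι : Type} [Fintype J] [Fintype ι]

omit [CharZero k] [Fintype ι] in
/-- Two zeros which agree in the weights less than `w` differ in weight `w` by an element of the
kernel of `Mw w`. -/
theorem WSys.mulVec_sub (S : WSys k J ι) {w : ℕ} (hw : 1 ≤ w) (y z : J → k)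
    (h : ∀ j, S.lam j < w → y j = z j)
    (hy : ∀ i, S.d i = w → MvPolynomial.aeval y (S.F i) = 0)
    (hz : ∀ i, S.d i = w → MvPolynomial.aeval z (S.F i) = 0) :
    (S.Mw w).mulVec (fun j : {j // S.lam j = w} => y j - z j) = 0 := by
  subst_vars
  funext ⟨i, hi⟩
  subst hi
  have h1 := S.aeval_sub_congr (R := k) i hw y z h
  rw [hy i rfl, hz i rfl, zero_sub, zero_sub, neg_inj] at h1
  simp only [Algebra.algebraMap_self, RingHom.id_apply] at h1
  simp only [Matrix.mulVec, dotProduct, WSys.Mw, Matrix.of_apply, mul_sub, Finset.sum_sub_distrib,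
    Pi.zero_apply]
  rw [h1, sub_self]

theorem WSys.zeros (S : WSys k J ι) (h1 : S.OnlyTriv 1)
    (hc : ∀ w, 1 ≤ w →
      Nat.card {j // S.lam j = w} = Nat.card {i // S.d i = w} + if w = 1 then 1 else 0)
    (y : J → k) (hy : ∀ i, MvPolynomial.eval y (S.F i) = 0) : ∃ c : k, ∀ j, y j = c ^ S.lam j := by
  obtain ⟨g2, g1⟩ := S.good h1 hc
  have hy' : ∀ i, MvPolynomial.aeval y (S.F i) = 0 := fun i => by
    rw [MvPolynomial.aeval_eq_eval]
    exact hy i
  have hz : ∀ (c : k) (i : ι), MvPolynomial.aeval (fun j => c ^ S.lam j) (S.F i) = 0 := by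
    intro c i
    have e := aeval_scale S.lam (S.F i) (S.d i) (S.hom i) c (fun _ => (1 : k))
    simp only [mul_one] at e
    rw [e, MvPolynomial.aeval_eq_eval, S.one i, mul_zero]
  obtain ⟨c, hc1⟩ := g1 (fun j => y j) (by
    have e := S.mulVec_sub le_rfl y (fun j => (0 : k) ^ S.lam j)
      (fun j hj => absurd (S.lam_pos j) (by omega)) (fun i _ => hy' i) (fun i _ => hz 0 i)
    have e2 : (fun j : {j // S.lam j = 1} => y j - (0 : k) ^ S.lam j) =
        fun j : {j // S.lam j = 1} => y j := by
      funext j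
      rw [zero_pow (by have := S.lam_pos j; omega), sub_zero]
    rwa [e2] at e)
  refine ⟨c, fun j => ?_⟩
  have key : ∀ w : ℕ, ∀ j, S.lam j = w → y j = c ^ S.lam j := by
    intro w
    induction w using Nat.strong_induction_on with
    | _ w ih =>
      intro j hj
      rcases Nat.lt_or_ge w 2 with h2 | h2
      · have := S.lam_pos j
        have hw : S.lam j = 1 := by omega
        rw [hw, pow_one]
        exact hc1 ⟨j, hw⟩
      · have e := g2 w h2 _ (S.mulVec_sub (by omega) y (fun j => c ^ S.lam j)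
          (fun j' hj' => ih _ hj' j' rfl) (fun i _ => hy' i) (fun i _ => hz c i))
        exact sub_eq_zero.1 (congrFun e ⟨j, hj⟩)
  exact key _ j rfl

end T1
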