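import Pool.Agent.Lib.MP_23b606_ag.T1.C.Maj
import Pool.Agent.Lib.MP_23b606_ag.T1.C.Cnt
import Pool.Agent.Lib.MP_23b606_ag.T1.C.Cvx
import Pool.Agent.Lib.MP_23b606_ag.T1.C.Uni

/-! C/ThmC: Theorem C. -/

set_option autoImplicit false

namespace T1

variable {k : Type} [Field k] [IsAlgClosed k] [CharZero k] {J ι : Type} [Fintype J] [Fintype ι]

theorem WSys.thmC (S : WSys k J ι) [Nonempty J] (h1 : S.OnlyTriv 1) (h2 : S.OnlyTriv 2)
    (hs : 1 + ∑ i, S.d i ≤ ∑ j, S.lam j) :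
    (∀ w, 1 ≤ w →
      Nat.card {j // S.lam j = w} = Nat.card {i // S.d i = w} + if w = 1 then 1 else 0) ∧
    ∀ y : J → k, (∀ i, MvPolynomial.eval y (S.F i) = 0) → ∃ c : k, ∀ j, y j = c ^ S.lam j := by
  have hs' : ∑ j, S.lam j = 1 + ∑ i, S.d i := le_antisymm (S.sum_le h1) hs
  have hc := counts_eq S.lam S.d hs' (fun w hw => S.maj h1 w hw) (S.count h1 h2 hs')
  exact ⟨hc, fun y hy => S.zeros h1 hc y hy⟩

end T1
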