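import Pool.Agent.Lib.MP_23b606_ag.T1.Defs

/-! C/Tri: the triangular structure of a weighted homogeneous system. -/

set_option autoImplicit false

open Polynomial

namespace T1

namespace WSys

variable {k : Type} [Field k] {J ι : Type} (S : WSys k J ι)

/-- The coefficient of the variable `y_j` in `F_i`. -/
noncomputable def Mx (i : ι) (j : J) : k := (S.F i).coeff (Finsupp.single j 1)

/-- The matrix of the coefficients in weight `w`. -/
noncomputable def Mw (w : ℕ) : Matrix {i // S.d i = w} {j // S.lam j = w} k :=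
  Matrix.of fun i j => S.Mx i j

theorem tri_aeval {R : Type} [CommRing R] [Algebra k R] (G : MvPolynomial J k) (y y' : J → R)
    (h : ∀ m, G.coeff m ≠ 0 → ∀ j, m j ≠ 0 → y j = y' j) :
    MvPolynomial.aeval y G = MvPolynomial.aeval y' G := by
  rw [MvPolynomial.aeval_def, MvPolynomial.aeval_def, MvPolynomial.eval₂_eq, MvPolynomial.eval₂_eq]
  refine Finset.sum_congr rfl fun m hm => ?_
  congr 1
  refine Finset.prod_congr rfl fun j hj => ?_
  rw [h m (MvPolynomial.mem_support_iff.1 hm) j (Finsupp.mem_support_iff.1 hj)]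

/-- A monomial of weight `w` in which the variable `y_j` occurs. -/
theorem tri_wt {w : ℕ} {m : J →₀ ℕ} (hm : Finsupp.weight S.lam m = w) {j : J} (hj : m j ≠ 0) :
    S.lam j ≤ w ∧ (S.lam j = w → m = Finsupp.single j 1) := by
  have hle : Finsupp.single j 1 ≤ m := by
    rw [Finsupp.single_le_iff]
    omega
  have h1 : m = Finsupp.single j 1 + (m - Finsupp.single j 1) := (add_tsub_cancel_of_le hle).symm
  have h2 : Finsupp.weight S.lam m =
      S.lam j + Finsupp.weight S.lam (m - Finsupp.single j 1) := by
    conv_lhs => rw [h1]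
    rw [map_add, Finsupp.weight_single, one_smul]
  refine ⟨by omega, fun h3 => ?_⟩
  have h4 : Finsupp.weight S.lam (m - Finsupp.single j 1) = 0 := by omega
  have h5 : m - Finsupp.single j 1 = 0 := by
    ext j'
    have h6 := Finsupp.le_weight S.lam (s := j') (by have := S.lam_pos j'; omega)
      (m - Finsupp.single j 1)
    rw [Finsupp.zero_apply]
    omega
  rw [h1, h5, add_zero]

/-- `F_i` depends only on the variables of weight at most `d_i`. -/
theorem aeval_congr {R : Type} [CommRing R] [Algebra k R] (i : ι) (y y' : J → R)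
    (h : ∀ j, S.lam j ≤ S.d i → y j = y' j) :
    MvPolynomial.aeval y (S.F i) = MvPolynomial.aeval y' (S.F i) := by
  refine tri_aeval _ y y' fun m hm j hj => h j ?_
  exact (S.tri_wt (S.hom i hm) hj).1

/-- The part of `F_i` without the variables of weight `d_i` depends only on the variables of
smaller weight. -/
theorem aeval_sub_congr [Fintype J] {R : Type} [CommRing R] [Algebra k R] (i : ι) (hi : 1 ≤ S.d i)
    (y y' : J → R) (h : ∀ j, S.lam j < S.d i → y j = y' j) :
    MvPolynomial.aeval y (S.F i)
        - ∑ j : {j // S.lam j = S.d i}, algebraMap k R (S.Mx i j) * y j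
      = MvPolynomial.aeval y' (S.F i)
        - ∑ j : {j // S.lam j = S.d i}, algebraMap k R (S.Mx i j) * y' j := by
  classical
  obtain ⟨G, hG⟩ : ∃ G : MvPolynomial J k, G = S.F i -
      ∑ j : {j // S.lam j = S.d i}, MvPolynomial.C (S.Mx i j) * MvPolynomial.X (j : J) :=
    ⟨_, rfl⟩
  have hev : ∀ z : J → R, MvPolynomial.aeval z G = MvPolynomial.aeval z (S.F i)
        - ∑ j : {j // S.lam j = S.d i}, algebraMap k R (S.Mx i j) * z j := by
    intro z
    rw [hG, map_sub, map_sum]
    congr 1
    refine Finset.sum_congr rfl fun j _ => ?_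
    rw [map_mul, MvPolynomial.aeval_X, MvPolynomial.algHom_C]
  rw [← hev, ← hev]
  refine tri_aeval G y y' fun m hm j hj => h j ?_
  -- the coefficients of `G`
  have hco : G.coeff m = (S.F i).coeff m -
      ∑ j : {j // S.lam j = S.d i}, S.Mx i j * (if Finsupp.single (j : J) 1 = m then 1 else 0) := by
    rw [hG, MvPolynomial.coeff_sub, MvPolynomial.coeff_sum]
    congr 1
    refine Finset.sum_congr rfl fun j _ => ?_
    rw [MvPolynomial.coeff_C_mul, MvPolynomial.coeff_X']
  have hns : ∀ j₀ : J, S.lam j₀ = S.d i → m ≠ Finsupp.single j₀ 1 := by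
    intro j₀ hj₀ hm₀
    apply hm
    rw [hco, Finset.sum_eq_single (⟨j₀, hj₀⟩ : {j // S.lam j = S.d i})]
    · rw [if_pos hm₀.symm, mul_one, Mx, hm₀, sub_self]
    · intro j' _ hj'
      rw [if_neg, mul_zero]
      intro h1
      apply hj'
      rw [hm₀] at h1
      exact Subtype.ext (Finsupp.single_left_injective one_ne_zero h1)
    · intro h1
      exact absurd (Finset.mem_univ _) h1
  have hF : (S.F i).coeff m ≠ 0 := by
    intro h0
    apply hm
    rw [hco, h0, Finset.sum_eq_zero, sub_zero]
    intro j' _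
    rw [if_neg, mul_zero]
    intro h1
    exact hns j' j'.2 h1.symm
  obtain ⟨h1, h2⟩ := S.tri_wt (S.hom i hF) hj
  refine lt_of_le_of_ne h1 fun h3 => hns j h3 (h2 h3)

/-- `d_i = 0` means that `F_i = 0`. -/
theorem F_eq_zero (i : ι) (hi : S.d i = 0) : S.F i = 0 := by
  classical
  have h0 : ∀ m, (S.F i).coeff m ≠ 0 → m = 0 := by
    intro m hm
    by_contra hne
    obtain ⟨j, hj⟩ := Finsupp.ne_iff.1 hne
    have h1 := (S.tri_wt (S.hom i hm) hj).1
    have h2 := S.lam_pos j
    omega
  have h1 : S.F i = MvPolynomial.C ((S.F i).coeff 0) := by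
    ext m
    rw [MvPolynomial.coeff_C]
    split_ifs with h
    · rw [← h]
    · by_contra hc
      exact h (h0 m hc).symm
  have h2 := S.one i
  rw [h1, MvPolynomial.eval_C] at h2
  rw [h1, h2, map_zero]

end WSys

end T1
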