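import Pool.Agent.Lib.MP_23b606_ag.T1.C.Tri
import Pool.Agent.Lib.MP_23b606_ag.T1.C.Hom

/-! C/Up: extension of solutions to higher weights. -/

set_option autoImplicit false

open Polynomial

namespace T1

/-- A square matrix with trivial kernel has a two sided inverse. -/
theorem exists_inv {k : Type} [Field k] {A B : Type} [Fintype A] [Fintype B] [DecidableEq A]
    [DecidableEq B] (hc : Fintype.card A = Fintype.card B) (M : Matrix A B k)
    (hM : ∀ v : B → k, M.mulVec v = 0 → v = 0) :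
    ∃ N : Matrix B A k, N * M = 1 ∧ M * N = 1 := by
  obtain ⟨e⟩ : Nonempty (A ≃ B) := ⟨Fintype.equivOfCardEq hc⟩
  obtain ⟨M', hM'⟩ : ∃ M' : Matrix B B k, M' = M.submatrix e.symm id := ⟨_, rfl⟩
  have h1 : M = M'.submatrix e id := by
    rw [hM']
    ext a b
    simp
  have h2 : IsUnit M' := by
    rw [← Matrix.mulVec_injective_iff_isUnit]
    refine (injective_iff_map_eq_zero' M'.mulVecLin.toAddMonoidHom).2 fun v => ⟨fun hv => ?_, ?_⟩
    · refine hM v ?_
      have h3 : M'.mulVec v = 0 := hv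
      funext a
      have h4 := congrFun h3 (e a)
      rw [Matrix.mulVec, dotProduct] at h4 ⊢
      rw [h1]
      exact h4
    · rintro rfl
      exact map_zero _
  obtain ⟨u, hu⟩ := h2
  refine ⟨(↑u⁻¹ : Matrix B B k).submatrix id e, ?_, ?_⟩
  · rw [h1, Matrix.submatrix_mul_equiv, ← hu, Units.inv_mul, Matrix.submatrix_id_id]
  · have h5 : (M'.submatrix e id) * ((↑u⁻¹ : Matrix B B k).submatrix id e) =
        (M' * (↑u⁻¹ : Matrix B B k)).submatrix e e :=
      Matrix.submatrix_mul_equiv M' (↑u⁻¹ : Matrix B B k) e (Equiv.refl B) e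
    rw [h1, h5, ← hu, Units.mul_inv, Matrix.submatrix_one_equiv]

/-- One step of the extension: from the weights `≤ W` to the weight `W + 1`. -/
theorem WSys.extend_step {k : Type} [Field k] {J ι : Type} [Fintype J] [Fintype ι]
    (S : WSys k J ι) (W : ℕ)
    (hc : Nat.card {j // S.lam j = W + 1} = Nat.card {i // S.d i = W + 1})
    (hM : ∀ v : {j // S.lam j = W + 1} → k, (S.Mw (W + 1)).mulVec v = 0 → v = 0)
    (P : J → k[X]) (hm : ∀ j, S.lam j ≤ W → (P j).Monic ∧ (P j).natDegree = S.lam j)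
    (hF : ∀ i, S.d i ≤ W → MvPolynomial.aeval P (S.F i) = 0) :
    ∃ P' : J → k[X], (∀ j, S.lam j ≤ W → P' j = P j) ∧
      (∀ j, S.lam j ≤ W + 1 → (P' j).Monic ∧ (P' j).natDegree = S.lam j) ∧
      ∀ i, S.d i ≤ W + 1 → MvPolynomial.aeval P' (S.F i) = 0 := by
  classical
  obtain ⟨w, hw⟩ : ∃ w, w = W + 1 := ⟨_, rfl⟩
  rw [← hw] at hc hM ⊢
  obtain ⟨N, hNM, hMN⟩ := exists_inv (A := {i // S.d i = w}) (B := {j // S.lam j = w})
    (by rw [← Nat.card_eq_fintype_card, ← Nat.card_eq_fintype_card, hc]) (S.Mw w) hM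
  -- the part without the variables of weight `w`
  obtain ⟨G, hG⟩ : ∃ G : {i // S.d i = w} → k[X], ∀ i, G i = MvPolynomial.aeval P (S.F i) -
      ∑ j : {j // S.lam j = S.d i}, algebraMap k k[X] (S.Mx i j) * P j := ⟨_, fun _ => rfl⟩
  -- a sum over `{j // lam j = d i}` is a sum over `{j // lam j = w}`
  have hsum : ∀ (i : {i // S.d i = w}) (f : J → k[X]),
      ∑ j : {j // S.lam j = S.d i}, f j = ∑ j : {j // S.lam j = w}, f j := by
    rintro ⟨i, hi⟩ f
    subst hi
    rfl
  have hG' : ∀ (i : {i // S.d i = w}) (Q : J → k[X]), (∀ j, S.lam j < w → Q j = P j) →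
      G i = MvPolynomial.aeval Q (S.F i) -
        ∑ j : {j // S.lam j = w}, C (S.Mw w i j) * Q j := by
    intro i Q hQ
    rw [hG i, S.aeval_sub_congr (i : ι) (by rw [i.2]; omega) P Q (fun j hj =>
      (hQ j (by rw [← i.2]; exact hj)).symm), hsum i (fun j => algebraMap k k[X] (S.Mx i j) * Q j)]
    rfl
  have hGd : ∀ i, (G i).natDegree ≤ w ∧ (G i).coeff w = -∑ j, S.Mw w i j := by
    intro i
    obtain ⟨Q, hQ⟩ : ∃ Q : J → k[X], ∀ j, Q j = if S.lam j < w then P j else X ^ S.lam j :=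
      ⟨_, fun _ => rfl⟩
    have hQm : ∀ j, (Q j).Monic := fun j => by
      rw [hQ j]
      split_ifs with h
      · exact (hm j (by omega)).1
      · exact monic_X_pow _
    have hQd : ∀ j, (Q j).natDegree = 1 * S.lam j := fun j => by
      rw [hQ j, one_mul]
      split_ifs with h
      · exact (hm j (by omega)).2
      · exact natDegree_X_pow _
    have h0 : (S.F i).IsWeightedHomogeneous S.lam w := by
      have h := S.hom i
      rwa [i.2] at h
    have h1 := coeff_aeval_top S.lam (S.F i) w h0 1 Q hQm hQd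
    rw [S.one i, map_zero, one_mul] at h1
    have h2 := hG' i Q fun j hj => by rw [hQ j, if_pos hj]
    have h3 : ∑ j : {j // S.lam j = w}, C (S.Mw w i j) * Q j =
        C (∑ j, S.Mw w i j) * X ^ w := by
      rw [map_sum, Finset.sum_mul]
      refine Finset.sum_congr rfl fun j _ => ?_
      rw [hQ j, if_neg (by rw [j.2]; exact lt_irrefl _), j.2]
    rw [h3] at h2
    refine ⟨?_, ?_⟩
    · rw [h2]
      exact (natDegree_sub_le _ _).trans (max_le h1.2 (natDegree_C_mul_X_pow_le _ _))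
    · rw [h2, coeff_sub, h1.1, coeff_C_mul_X_pow, if_pos rfl, zero_sub]
  obtain ⟨P', hP'⟩ : ∃ P' : J → k[X], ∀ j, P' j =
      if h : S.lam j = w then -∑ i, C (N ⟨j, h⟩ i) * G i else P j := ⟨_, fun _ => rfl⟩
  have hPw : ∀ j : {j // S.lam j = w}, P' j = -∑ i, C (N j i) * G i := fun j => by
    rw [hP', dif_pos j.2]
  have hPn : ∀ j, S.lam j ≠ w → P' j = P j := fun j hj => by rw [hP', dif_neg hj]
  refine ⟨P', fun j hj => hPn j (by omega), fun j hj => ?_, fun i hi => ?_⟩
  · by_cases h : S.lam j = w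
    · have h1 : (P' j).natDegree ≤ w := by
        rw [hPw ⟨j, h⟩, natDegree_neg]
        refine natDegree_sum_le_of_forall_le _ _ fun i _ => ?_
        exact (natDegree_C_mul_le _ _).trans (hGd i).1
      have h2 : (P' j).coeff w = 1 := by
        rw [hPw ⟨j, h⟩, coeff_neg, finsetSum_coeff]
        have h3 : ∀ i, (C (N ⟨j, h⟩ i) * G i).coeff w = -∑ j', N ⟨j, h⟩ i * S.Mw w i j' :=
          fun i => by rw [coeff_C_mul, (hGd i).2, mul_neg, Finset.mul_sum]
        rw [Finset.sum_congr rfl fun i _ => h3 i, Finset.sum_neg_distrib, neg_neg,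
          Finset.sum_comm]
        have h4 : ∀ j', ∑ i, N ⟨j, h⟩ i * S.Mw w i j' =
            (1 : Matrix {j // S.lam j = w} {j // S.lam j = w} k) ⟨j, h⟩ j' :=
          fun j' => by rw [← hNM, Matrix.mul_apply]
        refine (Finset.sum_congr rfl fun j' _ => h4 j').trans ?_
        exact (Finset.sum_eq_single_of_mem (⟨j, h⟩ : {j // S.lam j = w}) (Finset.mem_univ _)
          (fun j' _ hj' => Matrix.one_apply_ne hj'.symm)).trans (Matrix.one_apply_eq _)
      refine ⟨monic_of_natDegree_le_of_coeff_eq_one w h1 h2, ?_⟩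
      rw [h]
      exact natDegree_eq_of_le_of_coeff_ne_zero h1 (by rw [h2]; exact one_ne_zero)
    · rw [hPn j h]
      exact hm j (by omega)
  · by_cases h : S.d i = w
    · have h1 := hG' ⟨i, h⟩ P' fun j hj => hPn j (by omega)
      have h2 : ∑ j : {j // S.lam j = w}, C (S.Mw w ⟨i, h⟩ j) * P' j = -G ⟨i, h⟩ := by
        have h3 : ∀ j : {j // S.lam j = w}, C (S.Mw w ⟨i, h⟩ j) * P' j =
            -∑ i', C (S.Mw w ⟨i, h⟩ j * N j i') * G i' := fun j => by
          rw [hPw j, mul_neg, Finset.mul_sum]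
          simp only [C_mul, mul_assoc]
        rw [Finset.sum_congr rfl fun j _ => h3 j, Finset.sum_neg_distrib, Finset.sum_comm]
        have h4 : ∀ i', ∑ j, C (S.Mw w ⟨i, h⟩ j * N j i') * G i' =
            C ((1 : Matrix {i // S.d i = w} {i // S.d i = w} k) ⟨i, h⟩ i') * G i' := fun i' => by
          rw [← hMN, Matrix.mul_apply, map_sum, Finset.sum_mul]
        rw [Finset.sum_congr rfl fun i' _ => h4 i']
        rw [Finset.sum_eq_single_of_mem ⟨i, h⟩ (Finset.mem_univ _)
          (fun i' _ hi' => by rw [Matrix.one_apply_ne hi'.symm, map_zero, zero_mul]),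
          Matrix.one_apply_eq, map_one, one_mul]
      rw [h2, sub_neg_eq_add] at h1
      exact add_right_cancel (b := G ⟨i, h⟩) (by rw [zero_add]; exact h1.symm)
    · rw [S.aeval_congr i P' P fun j hj => hPn j (by omega)]
      exact hF i (by omega)

/-- If the matrices `M^w` are injective for all `w > w0 ≥ 1` (and square) then a family of monic
polynomials which solves the equations of weight at most `w0` can be changed in the weights
greater than `w0` to a solution. -/
theorem WSys.extend {k : Type} [Field k] {J ι : Type} [Fintype J] [Fintype ι] (S : WSys k J ι)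
    (w0 : ℕ) (hw0 : 1 ≤ w0)
    (hc : ∀ w, w0 < w → Nat.card {j // S.lam j = w} = Nat.card {i // S.d i = w})
    (hM : ∀ w, w0 < w → ∀ v : {j // S.lam j = w} → k, (S.Mw w).mulVec v = 0 → v = 0)
    (P : J → k[X]) (hm : ∀ j, S.lam j ≤ w0 → (P j).Monic ∧ (P j).natDegree = S.lam j)
    (hF : ∀ i, S.d i ≤ w0 → MvPolynomial.aeval P (S.F i) = 0) :
    ∃ P' : J → k[X], (∀ j, S.lam j ≤ w0 → P' j = P j) ∧ S.Sol 1 P' := by
  have h1 : ∀ n : ℕ, ∃ P' : J → k[X], (∀ j, S.lam j ≤ w0 → P' j = P j) ∧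
      (∀ j, S.lam j ≤ w0 + n → (P' j).Monic ∧ (P' j).natDegree = S.lam j) ∧
      ∀ i, S.d i ≤ w0 + n → MvPolynomial.aeval P' (S.F i) = 0 := by
    intro n
    induction n with
    | zero => exact ⟨P, fun _ _ => rfl, hm, hF⟩
    | succ n ih =>
      obtain ⟨P1, h1, h2, h3⟩ := ih
      obtain ⟨P2, h4, h5, h6⟩ := S.extend_step (w0 + n) (hc _ (by omega)) (hM _ (by omega)) P1 h2 h3
      exact ⟨P2, fun j hj => (h4 j (by omega)).trans (h1 j hj), h5, h6⟩
  obtain ⟨P', h2, h3, h4⟩ := h1 (∑ j, S.lam j + ∑ i, S.d i)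
  have h5 : ∀ j, S.lam j ≤ ∑ j, S.lam j := fun j =>
    Finset.single_le_sum (fun _ _ => Nat.zero_le _) (Finset.mem_univ j)
  have h6 : ∀ i, S.d i ≤ ∑ i, S.d i := fun i =>
    Finset.single_le_sum (fun _ _ => Nat.zero_le _) (Finset.mem_univ i)
  refine ⟨P', h2, fun j => (h3 j ?_).1, fun j => ?_, fun i => h4 i ?_⟩
  · have := h5 j
    omega
  · rw [one_mul]
    refine (h3 j ?_).2
    have := h5 j
    omega
  · have := h6 i
    omega

end T1
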